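import Pool.Agent.P.MP_dd1f31_an.Lag

/-!
Laplace transforms of decreasing functions give sequences in the cone; the two representations of
`k ^ s / k!`.
-/

set_option autoImplicit false

namespace Pool.Agent.P.MP_dd1f31_an

open Real MeasureTheory Set Filter Topology

theorem step_integral (a c : ℝ) (ha : 0 ≤ a) :
    IntegrableOn (fun l : ℝ => if l < a then c else 0) (Ioi 0) ∧
      ∫ l in Ioi (0 : ℝ), (if l < a then c else 0) = a * c := by
  have e : (fun l : ℝ => if l < a then c else 0) = (Iio a).indicator fun _ => c := by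
    ext l; simp [indicator]
  have hm : (volume.restrict (Ioi (0 : ℝ))) (Iio a) = ENNReal.ofReal a := by
    rw [Measure.restrict_apply measurableSet_Iio, inter_comm, Ioi_inter_Iio, volume_Ioo, sub_zero]
  rw [e]
  constructor
  · unfold IntegrableOn
    rw [integrable_indicator_iff measurableSet_Iio]
    exact integrableOn_const (by rw [hm]; exact ENNReal.ofReal_ne_top)
  · rw [integral_indicator_const _ measurableSet_Iio, Measure.real, hm, ENNReal.toReal_ofReal ha,
      smul_eq_mul]

/-- a decreasing weight keeps the sign of the primitive -/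
theorem layer (Ψ h : ℝ → ℝ) (hΨ : AntitoneOn Ψ (Ioi 0)) (h0 : ∀ u, 0 < u → 0 ≤ Ψ u)
    (mΨ : Measurable Ψ) (mh : Measurable h) (ih : IntegrableOn h (Ioi 0))
    (iΨ : IntegrableOn (fun u => Ψ u * h u) (Ioi 0))
    (hp : ∀ v, 0 ≤ v → 0 ≤ ∫ u in (0 : ℝ)..v, h u) : 0 ≤ ∫ u in Ioi 0, Ψ u * h u := by
  have hmeas : Measurable (Function.uncurry fun u l : ℝ => if l < Ψ u then h u else 0) :=
    Measurable.ite (measurableSet_lt measurable_snd (mΨ.comp measurable_fst))
      (mh.comp measurable_fst) measurable_const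
  have hint : Integrable (Function.uncurry fun u l : ℝ => if l < Ψ u then h u else 0)
      ((volume.restrict (Ioi 0)).prod (volume.restrict (Ioi 0))) := by
    rw [integrable_prod_iff hmeas.aestronglyMeasurable]
    constructor
    · filter_upwards [ae_restrict_mem measurableSet_Ioi] with u hu
      exact (step_integral (Ψ u) (h u) (h0 u hu)).1
    · refine iΨ.norm.congr ?_
      filter_upwards [ae_restrict_mem measurableSet_Ioi] with u hu
      have e : ∀ l : ℝ, ‖Function.uncurry (fun u l : ℝ => if l < Ψ u then h u else 0) (u, l)‖ =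
          if l < Ψ u then ‖h u‖ else 0 := fun l => by
        simp only [Function.uncurry]; split_ifs <;> simp
      simp only [e]
      rw [(step_integral _ _ (h0 u hu)).2, norm_mul, Real.norm_of_nonneg (h0 u hu)]
  rw [setIntegral_congr_fun measurableSet_Ioi
    (g := fun u => ∫ l in Ioi (0 : ℝ), if l < Ψ u then h u else 0)
    (fun u hu => (step_integral _ _ (h0 u hu)).2.symm), integral_integral_swap hint]
  refine integral_nonneg fun l => ?_
  by_cases hb : ∃ w, 0 < w ∧ Ψ w ≤ l
  · obtain ⟨w, hw⟩ := hb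
    set v := sInf {w | 0 < w ∧ Ψ w ≤ l} with hv
    have hbd : BddBelow {w | 0 < w ∧ Ψ w ≤ l} := ⟨0, fun x hx => hx.1.le⟩
    have hv0 : 0 ≤ v := le_csInf ⟨w, hw⟩ fun x hx => hx.1.le
    have e : ∫ u in Ioi (0 : ℝ), (if l < Ψ u then h u else 0) =
        ∫ u in Ioi (0 : ℝ), (Iio v).indicator h u := by
      refine integral_congr_ae ?_
      filter_upwards [ae_restrict_mem measurableSet_Ioi,
        ae_restrict_of_ae (Measure.ae_ne volume v)] with u hu huv
      rcases lt_or_gt_of_ne huv with h1 | h1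
      · rw [indicator_of_mem (show u ∈ Iio v from h1), if_pos]
        by_contra hc
        exact absurd (csInf_le hbd ⟨hu, not_lt.mp hc⟩) (not_le.mpr h1)
      · rw [indicator_of_notMem (show u ∉ Iio v from not_lt.mpr h1.le), if_neg]
        obtain ⟨x, hx, hxu⟩ := exists_lt_of_csInf_lt ⟨w, hw⟩ h1
        exact not_lt.mpr ((hΨ hx.1 hu hxu.le).trans hx.2)
    show 0 ≤ ∫ u in Ioi (0 : ℝ), (if l < Ψ u then h u else 0)
    rw [e, setIntegral_indicator measurableSet_Iio, Ioi_inter_Iio, ← integral_Ioc_eq_integral_Ioo,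
      ← intervalIntegral.integral_of_le hv0]
    exact hp v hv0
  · have e : ∫ u in Ioi (0 : ℝ), (if l < Ψ u then h u else 0) = ∫ u in Ioi (0 : ℝ), h u :=
      setIntegral_congr_fun measurableSet_Ioi fun u hu => if_pos (by
        by_contra hc
        exact hb ⟨u, hu, not_lt.mp hc⟩)
    show 0 ≤ ∫ u in Ioi (0 : ℝ), (if l < Ψ u then h u else 0)
    rw [e]
    refine ge_of_tendsto (intervalIntegral_tendsto_integral_Ioi 0 ih tendsto_id) ?_
    filter_upwards [eventually_ge_atTop 0] with v hv using hp v hv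

theorem integrableOn_kexp (k : ℕ) {t : ℝ} (ht : 0 < t) :
    IntegrableOn (fun u : ℝ => (k : ℝ) * exp (-(k * t * u))) (Ioi 0) := by
  rcases Nat.eq_zero_or_pos k with rfl | hk
  · simp
  · have hb : (0 : ℝ) < k * t := by positivity
    have := (exp_neg_integrableOn_Ioi 0 hb).const_mul (k : ℝ)
    simp only [neg_mul] at this
    exact this

theorem integral_kexp (k : ℕ) {t : ℝ} (ht : 0 < t) (v : ℝ) :
    ∫ u in (0 : ℝ)..v, (k : ℝ) * exp (-(k * t * u)) = (1 - exp (-(t * v)) ^ k) / t := by
  have hd : ∀ u ∈ uIcc (0 : ℝ) v, HasDerivAt (fun u => -exp (-(k * t * u)) / t)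
      ((k : ℝ) * exp (-(k * t * u))) u := fun u _ => by
    have h1 := ((((hasDerivAt_id u).const_mul ((k : ℝ) * t)).neg.exp).neg).div_const t
    refine h1.congr_deriv ?_
    simp only [id, Pi.neg_apply]
    field_simp
  rw [intervalIntegral.integral_eq_sub_of_hasDerivAt hd
    (Continuous.intervalIntegrable (by fun_prop) _ _), ← exp_nat_mul]
  simp only [mul_zero, neg_zero, exp_zero]
  rw [show (k : ℝ) * -(t * v) = -(k * t * v) by ring]
  ring

theorem good_lap (Ψ : ℝ → ℝ) (hΨ : AntitoneOn Ψ (Ioi 0)) (h0 : ∀ u, 0 < u → 0 ≤ Ψ u)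
    (mΨ : Measurable Ψ) {t : ℝ} (ht : 0 < t)
    (iΨ : ∀ k : ℕ, IntegrableOn (fun u => Ψ u * ((k : ℝ) * exp (-(k * t * u)))) (Ioi 0)) :
    Good fun k => ∫ u in Ioi (0 : ℝ), Ψ u * ((k : ℝ) * exp (-(k * t * u))) := by
  intro N c hc
  have e : ∀ u, Ψ u * ∑ k ∈ Finset.range (N + 1), c k * ((k : ℝ) * exp (-(k * t * u))) =
      ∑ k ∈ Finset.range (N + 1), c k * (Ψ u * ((k : ℝ) * exp (-(k * t * u)))) := fun u => by
    rw [Finset.mul_sum]; exact Finset.sum_congr rfl fun k _ => by ring
  have := layer Ψ (fun u => ∑ k ∈ Finset.range (N + 1), c k * ((k : ℝ) * exp (-(k * t * u))))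
    hΨ h0 mΨ (by fun_prop)
    (integrable_finsetSum _ fun k _ => (integrableOn_kexp k ht).const_mul _)
    (by simp only [e]; exact integrable_finsetSum _ fun k _ => (iΨ k).const_mul _) fun v hv => by
      rw [intervalIntegral.integral_finsetSum fun k _ =>
        Continuous.intervalIntegrable (by fun_prop) _ _]
      simp only [intervalIntegral.integral_const_mul (c _), integral_kexp _ ht]
      have h1 := hc (exp (-(t * v))) ⟨(exp_pos _).le, exp_le_one_iff.mpr (by nlinarith)⟩
      have e2 : ∑ k ∈ Finset.range (N + 1), c k * ((1 - exp (-(t * v)) ^ k) / t) =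
          (∑ k ∈ Finset.range (N + 1), c k -
            ∑ k ∈ Finset.range (N + 1), c k * exp (-(t * v)) ^ k) / t := by
        rw [← Finset.sum_sub_distrib, Finset.sum_div]
        exact Finset.sum_congr rfl fun k _ => by ring
      rw [e2]
      exact div_nonneg (by linarith) ht.le
  simp only [e] at this
  rw [integral_finsetSum _ fun k _ => (iΨ k).const_mul _] at this
  simpa only [integral_const_mul] using this

theorem good_integral (μ : Measure ℝ) (w : ℝ → ℝ) (β : ℝ → ℕ → ℝ)
    (h : ∀ᵐ r ∂μ, 0 ≤ w r ∧ Good (β r)) (hi : ∀ k, Integrable (fun r => w r * β r k) μ) :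
    Good fun k => ∫ r, w r * β r k ∂μ := by
  intro N c hc
  simp only [← integral_const_mul]
  rw [← integral_finsetSum _ fun k _ => (hi k).const_mul _]
  refine integral_nonneg_of_ae ?_
  filter_upwards [h] with r hr
  have := mul_nonneg hr.1 (hr.2 N c hc)
  rw [Finset.mul_sum] at this
  exact this.trans_eq (Finset.sum_congr rfl fun k _ => by ring)

theorem gamma_int {a r : ℝ} (ha : 0 < a) (hr : 0 < r) :
    IntegrableOn (fun t : ℝ => t ^ (a - 1) * exp (-(r * t))) (Ioi 0) :=
  .of_integral_ne_zero (by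
    rw [integral_rpow_mul_exp_neg_mul_Ioi ha hr]
    have := Gamma_pos_of_pos ha
    positivity)

theorem good_rpow {α : ℝ} (h0 : 0 ≤ α) (h1 : α < 1) :
    Good fun k => if k = 0 then 0 else Gamma (1 - α) * (k : ℝ) ^ α := by
  have hi : ∀ k : ℕ, IntegrableOn (fun u : ℝ => u ^ (-α) * ((k : ℝ) * exp (-(k * 1 * u))))
      (Ioi 0) := fun k => by
    rcases Nat.eq_zero_or_pos k with rfl | hk
    · simp
    · refine ((gamma_int (a := 1 - α) (r := k) (by linarith) (by positivity)).const_mul
        (k : ℝ)).congr (Eventually.of_forall fun u => ?_)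
      simp only [mul_one, sub_sub_cancel_left]; ring
  have := good_lap (fun u => u ^ (-α))
    (fun u hu v _ huv => rpow_le_rpow_of_nonpos hu huv (by linarith))
    (fun u hu => rpow_nonneg hu.le _) (by fun_prop) one_pos hi
  convert this using 2 with k
  split_ifs with hk
  · simp [hk]
  · have hk' : (0 : ℝ) < k := by positivity
    have e : ∀ u : ℝ, u ^ (-α) * ((k : ℝ) * exp (-(k * 1 * u))) =
        k * (u ^ (1 - α - 1) * exp (-(k * u))) := fun u => by
      simp only [mul_one, sub_sub_cancel_left]; ring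
    simp only [e]
    rw [integral_const_mul, integral_rpow_mul_exp_neg_mul_Ioi (by linarith) hk', one_div,
      inv_rpow hk'.le, rpow_sub hk', rpow_one]
    have := rpow_pos_of_pos hk' α
    field_simp

/-- the beta integrand -/
noncomputable def wb (s : ℝ) (k : ℕ) (v : ℝ) : ℝ := (exp v - 1) ^ (s - 1) * exp (-(k * v))

theorem expm1_pos {u : ℝ} (hu : 0 < u) : 0 < exp u - 1 := by
  have := add_one_lt_exp hu.ne'; linarith

theorem wb_int {s : ℝ} (h0 : 0 < s) (h1 : s ≤ 1) (k : ℕ) (hk : 0 < k) :
    IntegrableOn (wb s k) (Ioi 0) := by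
  refine Integrable.mono' (gamma_int h0 (show (0 : ℝ) < k by positivity))
    (Measurable.aestronglyMeasurable (by unfold wb; fun_prop)) ?_
  filter_upwards [ae_restrict_mem measurableSet_Ioi] with v hv
  have h2 := expm1_pos hv
  unfold wb
  rw [Real.norm_of_nonneg (by positivity)]
  gcongr ?_ * _
  exact rpow_le_rpow_of_nonpos hv (by have := add_one_le_exp v; linarith) (by linarith)

theorem wb_pos {s : ℝ} (h0 : 0 < s) (h1 : s ≤ 1) (k : ℕ) (hk : 0 < k) :
    0 < ∫ v in Ioi (0 : ℝ), wb s k v := by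
  rw [setIntegral_pos_iff_support_of_nonneg_ae ?_ (wb_int h0 h1 k hk)]
  · have : Function.support (wb s k) ∩ Ioi 0 = Ioi 0 := inter_eq_right.mpr fun v hv => by
      have h2 := expm1_pos hv
      exact (show 0 < wb s k v by unfold wb; positivity).ne'
    rw [this]; simp
  · filter_upwards [ae_restrict_mem measurableSet_Ioi] with v hv
    have h2 := expm1_pos hv
    show 0 ≤ wb s k v
    unfold wb; positivity

theorem wb_rec {s : ℝ} (h0 : 0 < s) (h1 : s ≤ 1) (k : ℕ) (hk : 0 < k) :
    ((k : ℝ) + 1) * ∫ v in Ioi (0 : ℝ), wb s (k + 1) v =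
      ((k : ℝ) + (1 - s)) * ∫ v in Ioi (0 : ℝ), wb s k v := by
  have hk1 : (1 : ℝ) ≤ k := by exact_mod_cast hk
  have hlim : Tendsto (fun u => (exp u - 1) ^ s * exp (-((k + 1 : ℝ) * u))) atTop (𝓝 0) := by
    refine tendsto_of_tendsto_of_tendsto_of_le_of_le' tendsto_const_nhds
      tendsto_exp_neg_atTop_nhds_zero ?_ ?_
    · filter_upwards [Ioi_mem_atTop 0] with u hu
      have := expm1_pos hu
      positivity
    · filter_upwards [Ioi_mem_atTop 0] with u hu
      have hu' : 0 < u := hu
      have h2 : (exp u - 1) ^ s ≤ exp (u * s) := by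
        rw [exp_mul]; exact rpow_le_rpow (expm1_pos hu).le (by linarith) h0.le
      calc (exp u - 1) ^ s * exp (-((k + 1 : ℝ) * u)) ≤ exp (u * s) * exp (-((k + 1 : ℝ) * u)) := by
            gcongr
        _ = exp (u * s + -((k + 1 : ℝ) * u)) := by rw [exp_add]
        _ ≤ exp (-u) := exp_le_exp.mpr (by nlinarith)
  have i1 := (wb_int h0 h1 (k + 1) (by omega)).const_mul ((k : ℝ) + 1)
  have i2 := (wb_int h0 h1 k hk).const_mul ((k : ℝ) + (1 - s))
  have h := integral_Ioi_of_hasDerivAt_of_tendsto (a := 0)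
    (f := fun u => (exp u - 1) ^ s * exp (-((k + 1 : ℝ) * u)))
    (f' := fun u => ((k : ℝ) + 1) * wb s (k + 1) u - ((k : ℝ) + (1 - s)) * wb s k u)
    (Continuous.continuousWithinAt (((continuous_exp.sub continuous_const).rpow_const
      fun _ => Or.inr h0.le).mul (by fun_prop))) (fun u hu => ?_) (i1.sub i2) hlim
  · rw [integral_sub i1 i2, integral_const_mul, integral_const_mul] at h
    simp only [exp_zero, sub_self, zero_rpow h0.ne', zero_mul] at h
    linarith
  · have h2 := expm1_pos hu
    have h3 := (((hasDerivAt_exp u).sub_const 1).rpow_const (p := s) (Or.inl h2.ne')).mul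
      (((hasDerivAt_id u).const_mul ((k : ℝ) + 1)).neg.exp)
    refine h3.congr_deriv ?_
    unfold wb
    have h4 : exp (-((k : ℝ) * u)) = exp (-((k + 1 : ℝ) * u)) * exp u := by
      rw [← exp_add]; congr 1; ring
    have h5 : (exp u - 1) ^ s = (exp u - 1) ^ (s - 1) * (exp u - 1) := by
      rw [rpow_sub_one h2.ne', div_mul_cancel₀ _ h2.ne']
    push_cast
    rw [h4, h5]
    simp only [id, Pi.neg_apply]
    ring

theorem good_beta {s : ℝ} (h0 : 0 < s) (h1 : s < 1) :
    Good fun k => Gamma (1 - s) * ((k : ℝ) ^ s * ∫ v in Ioi (0 : ℝ), wb s k v) := by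
  set Ψ : ℝ → ℝ := fun v => (v / (exp v - 1)) ^ (1 - s) with hΨ
  have mΨ : Measurable Ψ := by rw [hΨ]; fun_prop
  have hΨ0 : ∀ v, 0 < v → 0 ≤ Ψ v := fun v hv => rpow_nonneg (div_pos hv (expm1_pos hv)).le _
  have hΨ1 : ∀ v, 0 < v → Ψ v ≤ 1 := fun v hv =>
    rpow_le_one (div_pos hv (expm1_pos hv)).le
      ((div_le_one (expm1_pos hv)).mpr (by have := add_one_le_exp v; linarith)) (by linarith)
  have hanti : AntitoneOn Ψ (Ioi 0) := fun u hu v hv huv => by
    refine rpow_le_rpow (div_pos hv (expm1_pos hv)).le ?_ (by linarith)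
    have := convexOn_exp.secant_mono (a := 0) (mem_univ _) (mem_univ u) (mem_univ v)
      (ne_of_gt hu) (ne_of_gt hv) huv
    simp only [exp_zero, sub_zero] at this
    rw [← inv_div (exp v - 1), ← inv_div (exp u - 1)]
    exact inv_anti₀ (div_pos (expm1_pos hu) hu) this
  have hin : ∀ (k : ℕ) (t : ℝ), 0 < t →
      IntegrableOn (fun u => Ψ u * ((k : ℝ) * exp (-(k * t * u)))) (Ioi 0) := fun k t ht => by
    refine Integrable.mono' (integrableOn_kexp k ht) (Measurable.aestronglyMeasurable
      (mΨ.mul (by fun_prop))) ?_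
    filter_upwards [ae_restrict_mem measurableSet_Ioi] with u hu
    have := hΨ0 u hu
    rw [Real.norm_of_nonneg (by positivity)]
    exact mul_le_of_le_one_left (by positivity) (hΨ1 u hu)
  have inner : ∀ (k : ℕ), 0 < k → ∀ v : ℝ, 0 < v →
      IntegrableOn (fun r : ℝ => r ^ (-s) * (Ψ v * ((k : ℝ) * exp (-(k * (1 + r) * v)))))
        (Ioi 0) ∧ ∫ r in Ioi (0 : ℝ), r ^ (-s) * (Ψ v * ((k : ℝ) * exp (-(k * (1 + r) * v)))) =
          Gamma (1 - s) * ((k : ℝ) ^ s * wb s k v) := by
    intro k hk v hv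
    have hk' : (0 : ℝ) < k := by positivity
    have e : ∀ r : ℝ, r ^ (-s) * (Ψ v * ((k : ℝ) * exp (-(k * (1 + r) * v)))) =
        (Ψ v * k * exp (-(k * v))) * (r ^ (1 - s - 1) * exp (-(k * v * r))) := fun r => by
      rw [show -((k : ℝ) * (1 + r) * v) = -(k * v) + -(k * v * r) by ring, exp_add,
        sub_sub_cancel_left]
      ring
    simp only [e]
    refine ⟨(gamma_int (by linarith) (mul_pos hk' hv)).const_mul _, ?_⟩
    rw [integral_const_mul, integral_rpow_mul_exp_neg_mul_Ioi (by linarith) (mul_pos hk' hv)]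
    have h2 := expm1_pos hv
    simp only [hΨ, wb]
    rw [div_rpow hv.le h2.le, one_div, inv_rpow (mul_pos hk' hv).le, mul_rpow hk'.le hv.le,
      rpow_sub hk', rpow_one, show s - 1 = -(1 - s) by ring, rpow_neg h2.le]
    have := rpow_pos_of_pos hk' s
    have := rpow_pos_of_pos hv (1 - s)
    have := rpow_pos_of_pos h2 (1 - s)
    field_simp
  have hint : ∀ k : ℕ, Integrable (Function.uncurry fun v r : ℝ =>
      r ^ (-s) * (Ψ v * ((k : ℝ) * exp (-(k * (1 + r) * v)))))
      ((volume.restrict (Ioi 0)).prod (volume.restrict (Ioi 0))) := by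
    intro k
    rcases Nat.eq_zero_or_pos k with rfl | hk
    · simp only [Nat.cast_zero, zero_mul, mul_zero]
      exact integrable_zero _ _ _
    have hmeas : Measurable (Function.uncurry fun v r : ℝ =>
        r ^ (-s) * (Ψ v * ((k : ℝ) * exp (-(k * (1 + r) * v))))) :=
      Measurable.mul (by fun_prop) ((mΨ.comp measurable_fst).mul (by fun_prop))
    rw [integrable_prod_iff hmeas.aestronglyMeasurable]
    constructor
    · filter_upwards [ae_restrict_mem measurableSet_Ioi] with v hv
      exact (inner k hk v hv).1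
    · refine (((wb_int h0 h1.le k hk).const_mul ((k : ℝ) ^ s)).const_mul (Gamma (1 - s))).congr ?_
      filter_upwards [ae_restrict_mem measurableSet_Ioi] with v hv
      rw [← (inner k hk v hv).2]
      refine setIntegral_congr_fun measurableSet_Ioi fun r hr => ?_
      have := hΨ0 v hv
      have := rpow_nonneg (le_of_lt hr) (-s)
      simp only [Function.uncurry]
      rw [Real.norm_of_nonneg (by positivity)]
  have := good_integral (volume.restrict (Ioi 0)) (fun r => r ^ (-s))
    (fun r k => ∫ v in Ioi (0 : ℝ), Ψ v * ((k : ℝ) * exp (-(k * (1 + r) * v)))) (by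
      filter_upwards [ae_restrict_mem measurableSet_Ioi] with r hr
      have hr' : 0 < r := hr
      exact ⟨rpow_nonneg hr'.le _, good_lap Ψ hanti hΨ0 mΨ (by linarith)
        fun k => hin k _ (by linarith)⟩) fun k => by
      simpa only [Function.uncurry, integral_const_mul] using (hint k).integral_prod_right
  convert this using 2 with k
  simp only [← integral_const_mul]
  rw [← integral_integral_swap (hint k)]
  rcases Nat.eq_zero_or_pos k with rfl | hk
  · simp [h0.ne']
  · exact setIntegral_congr_fun measurableSet_Ioi fun v hv => (inner k hk v hv).2.symm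

end Pool.Agent.P.MP_dd1f31_an
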