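import Pool.Agent.P.MP_dd1f31_an.Half

/-!
The series along the negative axis in the logarithmic variable; bounds for the Bessel function.
-/

set_option autoImplicit false

namespace Pool.Agent.P.MP_dd1f31_an

open Real MeasureTheory Set Filter Topology

/-- the series at the point `-exp w` -/
noncomputable def ser (s w : ℝ) : ℝ :=
  ∑' k : ℕ, (k : ℝ) ^ s / (k.factorial : ℝ) ^ 2 * (-exp w) ^ k

theorem norm_term (s w : ℝ) (k : ℕ) : ‖(k : ℝ) ^ s / (k.factorial : ℝ) ^ 2 * (-exp w) ^ k‖ =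
    (k : ℝ) ^ s / (k.factorial : ℝ) ^ 2 * exp w ^ k := by
  rw [norm_mul, norm_pow, norm_neg, Real.norm_of_nonneg (exp_pos w).le,
    Real.norm_of_nonneg (by positivity)]

theorem summable_term {s : ℝ} (hs : 0 ≤ s) (w : ℝ) :
    Summable fun k : ℕ => (k : ℝ) ^ s / (k.factorial : ℝ) ^ 2 * (-exp w) ^ k :=
  Summable.of_norm (by simpa only [norm_term] using summable_gam s hs _ (exp_pos w).le)

theorem rpow_succ_nat {s : ℝ} (hs : 0 ≤ s) (k : ℕ) : (k : ℝ) ^ (s + 1) = (k : ℝ) ^ s * k := by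
  rcases Nat.eq_zero_or_pos k with rfl | hk
  · simp [(show s + 1 ≠ 0 by linarith)]
  · exact rpow_add_one (by positivity) s

theorem hasDerivAt_ser {s : ℝ} (hs : 0 ≤ s) (w : ℝ) : HasDerivAt (ser s) (ser (s + 1) w) w := by
  refine hasDerivAt_tsum_of_isPreconnected (y₀ := w)
    (g := fun (k : ℕ) y => (k : ℝ) ^ s / (k.factorial : ℝ) ^ 2 * (-exp y) ^ k)
    (g' := fun (k : ℕ) y => (k : ℝ) ^ (s + 1) / (k.factorial : ℝ) ^ 2 * (-exp y) ^ k)
    (summable_gam (s + 1) (by linarith) _ (exp_pos (w + 1)).le) isOpen_Iio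
    (isPreconnected_Iio (a := w + 1)) (fun k y _ => ?_) (fun k y hy => ?_)
    (show w ∈ Iio (w + 1) by simp) (summable_term hs w) (show w ∈ Iio (w + 1) by simp)
  · have := ((hasDerivAt_exp y).neg.pow k).const_mul ((k : ℝ) ^ s / (k.factorial : ℝ) ^ 2)
    refine this.congr_deriv ?_
    rw [rpow_succ_nat hs]
    cases k with
    | zero => simp
    | succ k => simp only [Nat.add_sub_cancel, Pi.neg_apply]; ring
  · rw [norm_term]
    gcongr
    exact le_of_lt hy

theorem ser_two (w : ℝ) : ser (0 + 1 + 1) w = -exp w * ser 0 w := by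
  unfold ser
  rw [(summable_term (by norm_num) w).tsum_eq_zero_add, ← tsum_mul_left]
  have e : ∀ k : ℕ, (k : ℝ) ^ (0 + 1 + 1 : ℝ) = (k : ℝ) * k := fun k => by
    rw [rpow_succ_nat (by norm_num), zero_add, rpow_one]
  simp only [e]
  simp only [Nat.cast_zero, mul_zero, zero_div, zero_mul, zero_add, rpow_zero]
  refine tsum_congr fun k => ?_
  have : (0 : ℝ) < k.factorial := by positivity
  rw [Nat.factorial_succ]
  push_cast
  field_simp
  ring

theorem abs_ser_le {s : ℝ} (hs : 0 ≤ s) (w : ℝ) (hw : w ≤ 0) :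
    |ser s w| ≤ ∑' k : ℕ, (k : ℝ) ^ s / (k.factorial : ℝ) ^ 2 * 1 ^ k := by
  rw [← Real.norm_eq_abs]
  refine tsum_of_norm_bounded (summable_gam s hs 1 zero_le_one).hasSum fun k => ?_
  rw [norm_term]
  gcongr
  exact exp_le_one_iff.mpr hw

theorem abs_ser_one_le (w : ℝ) (hw : w ≤ 0) : |ser (0 + 1) w| ≤
    (∑' k : ℕ, (k : ℝ) ^ (0 + 1 : ℝ) / (k.factorial : ℝ) ^ 2 * 1 ^ k) * exp (w / 4) := by
  rw [← Real.norm_eq_abs]
  refine tsum_of_norm_bounded
    ((summable_gam (0 + 1) (by norm_num) 1 zero_le_one).hasSum.mul_right _) fun k => ?_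
  rw [norm_term]
  cases k with
  | zero => simp
  | succ k =>
    rw [one_pow, mul_one]
    gcongr
    rw [← exp_nat_mul]
    refine exp_le_exp.mpr ?_
    push_cast
    have : (0 : ℝ) ≤ k := by positivity
    nlinarith

theorem ser_near_one (w : ℝ) (hw : w ≤ -2) : |ser 0 w - 1| ≤ 1 / 2 := by
  have hx : exp w ≤ 1 / 3 := by
    have h1 := add_one_le_exp (2 : ℝ)
    have h2 : exp w * exp 2 ≤ 1 := by rw [← exp_add]; exact exp_le_one_iff.mpr (by linarith)
    nlinarith [exp_pos w]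
  unfold ser
  rw [(summable_term le_rfl w).tsum_eq_zero_add]
  simp only [rpow_zero, Nat.factorial_zero, Nat.cast_one, one_pow, div_one, pow_zero, mul_one,
    add_sub_cancel_left]
  have hs : HasSum (fun k : ℕ => (1 / 3 : ℝ) * (1 / 3) ^ k) (1 / 2) := by
    have := (hasSum_geometric_of_lt_one (r := (1 / 3 : ℝ)) (by norm_num) (by norm_num)).mul_left
      (1 / 3)
    norm_num at this ⊢
    exact this
  rw [← Real.norm_eq_abs]
  refine tsum_of_norm_bounded hs fun k => ?_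
  have := norm_term 0 w (k + 1)
  rw [rpow_zero] at this
  rw [this, ← pow_succ']
  have h2 : (1 : ℝ) ≤ ((k + 1).factorial : ℝ) := by exact_mod_cast Nat.factorial_pos _
  calc _ ≤ 1 / 1 ^ 2 * (1 / 3 : ℝ) ^ (k + 1) := by gcongr
    _ = _ := by simp

theorem bessel_bounds : ∃ C : ℝ, 0 < C ∧ ∀ w, |ser 0 w| ≤ C * exp (-w / 4) ∧
    |ser (0 + 1) w| ≤ C * exp (w / 4) := by
  set j := ser 0 with hj
  set g := ser (0 + 1) with hg
  have dj : ∀ w, HasDerivAt j (g w) w := hasDerivAt_ser le_rfl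
  have dg : ∀ w, HasDerivAt g (-exp w * j w) w := fun w => by
    rw [← ser_two]; exact hasDerivAt_ser (by norm_num) w
  set V : ℝ → ℝ := fun w => exp (w / 2) * j w ^ 2 +
    exp (-w / 2) * (g w ^ 2 + j w * g w / 2 + j w ^ 2 / 8) with hV
  have dV : ∀ w, HasDerivAt V (-(exp (-w / 2) * j w ^ 2 / 16)) w := fun w => by
    have h1 := ((((hasDerivAt_id w).div_const 2).exp).mul ((dj w).pow 2)).add
      ((((hasDerivAt_id w).neg.div_const 2).exp).mul ((((dg w).pow 2).add
        (((dj w).mul (dg w)).div_const 2)).add (((dj w).pow 2).div_const 8)))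
    refine h1.congr_deriv ?_
    have e : exp (-w / 2) * exp w = exp (w / 2) := by rw [← exp_add]; congr 1; ring
    simp only [id, Pi.neg_apply, Pi.add_apply, Pi.pow_apply, Pi.mul_apply, Nat.cast_ofNat,
      Nat.add_one_sub_one, pow_one]
    rw [← e]
    ring
  have hanti : Antitone V := antitone_of_deriv_nonpos (fun w => (dV w).differentiableAt) fun w => by
    rw [(dV w).deriv]
    have : 0 ≤ exp (-w / 2) * j w ^ 2 / 16 := by positivity
    linarith
  set A := ∑' k : ℕ, (k : ℝ) ^ (0 : ℝ) / (k.factorial : ℝ) ^ 2 * 1 ^ k with hA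
  set B := ∑' k : ℕ, (k : ℝ) ^ (0 + 1 : ℝ) / (k.factorial : ℝ) ^ 2 * 1 ^ k with hB
  have hA0 : 0 ≤ A := (abs_nonneg _).trans (abs_ser_le le_rfl 0 le_rfl)
  have hB0 : 0 ≤ B := (abs_nonneg _).trans (abs_ser_le (by norm_num) 0 le_rfl)
  obtain ⟨K, hK, hKV⟩ : ∃ K : ℝ, 0 ≤ K ∧ V 0 ≤ K := ⟨|V 0|, abs_nonneg _, le_abs_self _⟩
  clear_value A B
  refine ⟨A + B + (K + 1), by positivity, fun w => ?_⟩
  have p1 := exp_pos (-w / 4)
  have p2 := exp_pos (w / 4)
  rcases le_total w 0 with hw | hw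
  · have h1 : 1 ≤ exp (-w / 4) := one_le_exp (by linarith)
    have h2 : |j w| ≤ A := hA ▸ abs_ser_le le_rfl w hw
    have h3 : |g w| ≤ B * exp (w / 4) := hB ▸ abs_ser_one_le w hw
    exact ⟨h2.trans ((le_mul_of_one_le_right hA0 h1).trans (by gcongr; linarith)),
      h3.trans (by gcongr; linarith)⟩
  · have h1 : V w ≤ K := (hanti hw).trans hKV
    have e1 : exp (w / 2) = exp (w / 4) ^ 2 := by rw [← exp_nat_mul]; congr 1; push_cast; ring
    have e2 : exp (-w / 2) = exp (-w / 4) ^ 2 := by rw [← exp_nat_mul]; congr 1; push_cast; ring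
    have e3 : exp (w / 4) * exp (-w / 4) = 1 := by rw [← exp_add]; simp [neg_div]
    simp only [hV, e1, e2] at h1
    have q1 : 0 ≤ exp (w / 4) ^ 2 * j w ^ 2 := by positivity
    have q2 : exp (-w / 4) ^ 2 * (g w ^ 2 / 2) ≤
        exp (-w / 4) ^ 2 * (g w ^ 2 + j w * g w / 2 + j w ^ 2 / 8) := by
      gcongr; nlinarith [sq_nonneg (g w + j w / 2)]
    have q4 : 2 * K ≤ (K + 1) ^ 2 := by nlinarith [sq_nonneg K]
    have q3 : 0 ≤ exp (-w / 4) ^ 2 * (g w ^ 2 / 2) := by positivity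
    have r1 : |exp (w / 4) * j w| ≤ K + 1 :=
      abs_le_of_sq_le_sq' (by rw [mul_pow]; linarith) (by positivity) |> abs_le.mpr
    have r2 : |exp (-w / 4) * g w| ≤ K + 1 :=
      abs_le_of_sq_le_sq' (by rw [mul_pow]; linarith) (by positivity) |> abs_le.mpr
    rw [abs_mul, abs_of_pos p2] at r1
    rw [abs_mul, abs_of_pos p1] at r2
    have s1 : |j w| ≤ (K + 1) * exp (-w / 4) := by
      calc |j w| = exp (w / 4) * |j w| * exp (-w / 4) := by linear_combination (-|j w|) * e3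
        _ ≤ _ := by gcongr
    have s2 : |g w| ≤ (K + 1) * exp (w / 4) := by
      calc |g w| = exp (-w / 4) * |g w| * exp (w / 4) := by linear_combination (-|g w|) * e3
        _ ≤ _ := by gcongr
    exact ⟨s1.trans (mul_le_mul_of_nonneg_right (by linarith) p1.le),
      s2.trans (mul_le_mul_of_nonneg_right (by linarith) p2.le)⟩

theorem ser_repr {s : ℝ} (h0 : 0 < s) (h1 : s < 1) (L : ℝ) :
    Gamma (1 - s) * ser s L = ∫ u in Ioi (0 : ℝ), u ^ (-s) * ser (0 + 1) (L - u) := by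
  have hG := Gamma_pos_of_pos (show 0 < 1 - s by linarith)
  have e : ∀ (k : ℕ) (u : ℝ), u ^ (-s) * ((k : ℝ) ^ (0 + 1 : ℝ) / (k.factorial : ℝ) ^ 2 *
      (-exp (L - u)) ^ k) = ((k : ℝ) / (k.factorial : ℝ) ^ 2 * (-exp L) ^ k) *
        (u ^ (1 - s - 1) * exp (-(k * u))) := fun k u => by
    rw [zero_add, rpow_one, sub_sub_cancel_left, sub_eq_add_neg, exp_add, ← neg_mul, mul_pow,
      ← exp_nat_mul, mul_neg (k : ℝ)]
    ring
  have key : ∀ (k : ℕ) (c : ℝ), IntegrableOn (fun u : ℝ => ((k : ℝ) / (k.factorial : ℝ) ^ 2 * c) *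
      (u ^ (1 - s - 1) * exp (-(k * u)))) (Ioi 0) ∧ ∫ u in Ioi (0 : ℝ),
        ((k : ℝ) / (k.factorial : ℝ) ^ 2 * c) * (u ^ (1 - s - 1) * exp (-(k * u))) =
          Gamma (1 - s) * ((k : ℝ) ^ s / (k.factorial : ℝ) ^ 2 * c) := by
    intro k c
    rcases Nat.eq_zero_or_pos k with rfl | hk
    · simp [h0.ne']
    · have hk' : (0 : ℝ) < k := by positivity
      refine ⟨(gamma_int (by linarith) hk').const_mul _, ?_⟩
      rw [integral_const_mul, integral_rpow_mul_exp_neg_mul_Ioi (by linarith) hk', one_div,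
        inv_rpow hk'.le, rpow_sub hk', rpow_one]
      have := rpow_pos_of_pos hk' s
      field_simp
  unfold ser
  simp only [← tsum_mul_left, e]
  rw [← integral_tsum_of_summable_integral_norm (fun k => (key k _).1)]
  · exact tsum_congr fun k => (key k _).2.symm
  · refine ((summable_gam s h0.le _ (exp_pos L).le).mul_left (Gamma (1 - s))).congr fun k => ?_
    rw [← (key k _).2]
    refine setIntegral_congr_fun measurableSet_Ioi fun u hu => ?_
    have := rpow_nonneg (le_of_lt hu) (1 - s - 1)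
    simp only [norm_mul, norm_pow, norm_neg]
    rw [Real.norm_of_nonneg (exp_pos _).le, Real.norm_of_nonneg (exp_pos _).le,
      Real.norm_of_nonneg this, Real.norm_of_nonneg (by positivity)]

end Pool.Agent.P.MP_dd1f31_an
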