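import Mathlib

/-!
Real-rooted polynomials from sign alternation at the Chebyshev nodes, and the Taylor
coefficients of rescaled Chebyshev polynomials.
-/

set_option autoImplicit false

namespace Pool.Agent.P.MP_dd1f31_an

open Polynomial Polynomial.Chebyshev Finset

theorem roots_of_alternation (N : ℕ) (P : ℝ[X]) (hdeg : P.natDegree ≤ N)
    (halt : ∀ i ≤ N, 0 < (-1) ^ i * P.eval (node N i)) (z : ℂ) (hz : aeval z P = 0) :
    z.im = 0 ∧ z.re ≤ 1 := by
  have hP : P ≠ 0 := by
    intro h; have := halt 0 (Nat.zero_le _); simp [h] at this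
  have hex : ∀ i : ℕ, ∃ r : ℝ, i < N → (node N (i + 1) < r ∧ r < node N i ∧ P.eval r = 0) := by
    intro i
    by_cases hi : i < N
    swap
    · exact ⟨0, fun h => absurd h hi⟩
    have hlt : node N (i + 1) < node N i := node_lt hi (Nat.lt_succ_self i)
    have h1 := halt i hi.le
    have h2 := halt (i + 1) hi
    have hc : ContinuousOn (fun x : ℝ => (-1) ^ i * P.eval x) (Set.Icc (node N (i + 1)) (node N i)) :=
      (continuous_const.mul P.continuous).continuousOn
    have h3 : (-1) ^ i * P.eval (node N (i + 1)) < 0 := by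
      rw [pow_succ] at h2; linarith
    obtain ⟨r, hr, hr0⟩ := intermediate_value_Ioo hlt.le hc (show (0 : ℝ) ∈ _ from ⟨h3, h1⟩)
    refine ⟨r, fun _ => ⟨hr.1, hr.2, ?_⟩⟩
    have : ((-1 : ℝ)) ^ i ≠ 0 := pow_ne_zero _ (by norm_num)
    exact (mul_eq_zero.mp hr0).resolve_left this
  choose r hr using hex
  have hanti : ∀ i j, i < j → j < N → r j < r i := by
    intro i j hij hj
    have h1 := (hr i (by omega)).1
    have h2 := (hr j hj).2.1
    have h3 : node N j ≤ node N (i + 1) := by
      rcases Nat.lt_or_ge (i + 1) j with h | h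
      · exact (node_lt hj.le h).le
      · have : j = i + 1 := by omega
        rw [this]
    linarith
  classical
  set s : Finset ℂ := (range N).image (fun i => ((r i : ℝ) : ℂ)) with hs
  have hcard : s.card = N := by
    rw [hs, card_image_of_injOn, card_range]
    intro i hi j hj hij
    simp only [coe_range, Set.mem_Iio] at hi hj
    have hij' : r i = r j := Complex.ofReal_injective hij
    rcases lt_trichotomy i j with h | h | h
    · have := hanti i j h hj; linarith
    · exact h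
    · have := hanti j i h hi; linarith
  have hsub : s ⊆ (P.aroots ℂ).toFinset := by
    intro w hw
    simp only [hs, mem_image, mem_range] at hw
    obtain ⟨i, hi, rfl⟩ := hw
    rw [Multiset.mem_toFinset, mem_aroots]
    refine ⟨hP, ?_⟩
    have := (hr i hi).2.2
    rw [show ((r i : ℝ) : ℂ) = algebraMap ℝ ℂ (r i) from rfl, aeval_algebraMap_apply]
    simp [this]
  have hle : (P.aroots ℂ).toFinset.card ≤ s.card := by
    rw [hcard]
    refine (Multiset.toFinset_card_le _).trans ((card_roots' _).trans ?_)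
    exact natDegree_map_le.trans hdeg
  have heq := eq_of_subset_of_card_le hsub hle
  have hzs : z ∈ s := by
    rw [heq, Multiset.mem_toFinset, mem_aroots]; exact ⟨hP, hz⟩
  simp only [hs, mem_image, mem_range] at hzs
  obtain ⟨i, hi, rfl⟩ := hzs
  refine ⟨by simp, ?_⟩
  have h1 := (hr i hi).2.1
  have h2 := (node_mem_Icc (n := N) (i := i)).2
  simp only [Complex.ofReal_re]; linarith

/-- the substitution `y = 1 + 2 x / N ^ 2` -/
noncomputable def resc (N : ℕ) (P : ℝ[X]) : ℝ[X] := (taylor 1 P).comp (C (2 / (N : ℝ) ^ 2) * X)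

theorem aeval_resc (N : ℕ) (P : ℝ[X]) (z : ℂ) :
    aeval z (resc N P) = aeval (((2 / (N : ℝ) ^ 2 : ℝ) : ℂ) * z + 1) P := by
  unfold resc
  rw [aeval_comp, taylor_apply, aeval_comp]
  simp

/-- the normalised coefficient -/
noncomputable def hh (N k j : ℕ) : ℝ := ∏ l ∈ range k, (((j : ℝ) / N) ^ 2 - ((l : ℝ) / N) ^ 2)

theorem prod_odd (k : ℕ) :
    (∏ l ∈ range k, (2 * (l : ℝ) + 1)) * (k.factorial : ℝ) * 2 ^ k = ((2 * k).factorial : ℝ) := by
  induction k with
  | zero => simp
  | succ k ih =>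
    rw [prod_range_succ, show 2 * (k + 1) = 2 * k + 1 + 1 by ring, Nat.factorial_succ (2 * k + 1),
      Nat.factorial_succ (2 * k), Nat.factorial_succ k]
    push_cast
    rw [← ih]; ring

theorem coeff_resc (N : ℕ) (P : ℝ[X]) (k : ℕ) :
    (resc N P).coeff k = (hasseDeriv k P).eval 1 * (2 / (N : ℝ) ^ 2) ^ k := by
  unfold resc
  rw [comp_C_mul_X_coeff, taylor_coeff]

theorem coeff_resc_T (N j k : ℕ) :
    (hasseDeriv k (T ℝ (j : ℤ))).eval 1 * (2 / (N : ℝ) ^ 2) ^ k =
      4 ^ k / ((2 * k).factorial : ℝ) * hh N k j := by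
  have h1 := iterate_derivative_T_eval_one (R := ℝ) (j : ℤ) k
  have h2 : (derivative^[k] (T ℝ (j : ℤ))).eval 1 =
      (k.factorial : ℝ) * (hasseDeriv k (T ℝ (j : ℤ))).eval 1 := by
    rw [← factorial_smul_hasseDeriv]; simp
  rw [h2] at h1
  push_cast at h1
  have h3 := prod_odd k
  have h4 : hh N k j = (∏ l ∈ range k, ((j : ℝ) ^ 2 - (l : ℝ) ^ 2)) * (1 / (N : ℝ) ^ 2) ^ k := by
    unfold hh
    rw [← card_range k, ← prod_const, card_range, ← prod_mul_distrib]
    exact prod_congr rfl (fun l _ => by ring)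
  have h5 : ((2 * k).factorial : ℝ) ≠ 0 := by positivity
  rw [h4, ← h1, div_mul_eq_mul_div, eq_div_iff h5, ← h3,
    show (2 / (N : ℝ) ^ 2) = 2 * (1 / (N : ℝ) ^ 2) by ring, mul_pow,
    show (4 : ℝ) ^ k = 2 ^ k * 2 ^ k by rw [← mul_pow]; norm_num]
  ring

theorem abs_hh_le (N k j : ℕ) (hj : j ≤ N) : |hh N k j| ≤ 1 := by
  unfold hh
  by_cases hjk : j < k
  · rw [prod_eq_zero (mem_range.mpr hjk) (by ring)]; simp
  · rw [abs_prod]
    refine prod_le_one (fun _ _ => abs_nonneg _) (fun l hl => ?_)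
    have hl' : (l : ℝ) ≤ j := by
      have := mem_range.mp hl
      exact_mod_cast (by omega : l ≤ j)
    have hj' : (j : ℝ) ≤ N := by exact_mod_cast hj
    have h0 : (0 : ℝ) ≤ (l : ℝ) / N := by positivity
    have h1 : (l : ℝ) / N ≤ (j : ℝ) / N := by gcongr
    have h2 : (j : ℝ) / N ≤ 1 := div_le_one_of_le₀ hj' (by positivity)
    rw [abs_le]; constructor <;> nlinarith

theorem hh_tendsto (k : ℕ) (j : ℕ → ℕ) (t : ℝ)
    (h : Filter.Tendsto (fun N : ℕ => (j N : ℝ) / N) Filter.atTop (nhds t)) :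
    Filter.Tendsto (fun N : ℕ => hh N k (j N)) Filter.atTop (nhds (t ^ (2 * k))) := by
  have e : t ^ (2 * k) = ∏ _l ∈ range k, (t ^ 2 - 0 ^ 2) := by
    rw [prod_const, card_range, pow_mul]; simp
  rw [e]
  unfold hh
  refine tendsto_finsetProd _ (fun l _ => ?_)
  exact (h.pow 2).sub ((tendsto_const_div_atTop_nhds_zero_nat (l : ℝ)).pow 2)

theorem locUnif_of_coeff (p : ℕ → ℝ[X]) (g b : ℕ → ℝ)
    (hlim : ∀ k, Filter.Tendsto (fun N => (p N).coeff k) Filter.atTop (nhds (g k)))
    (hb : ∀ N k, |(p N).coeff k| ≤ b k)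
    (hs : ∀ R : ℝ, 0 ≤ R → Summable (fun k => b k * R ^ k)) :
    TendstoLocallyUniformly (fun N (z : ℂ) => aeval z (p N))
      (fun z : ℂ => ∑' k : ℕ, ((g k : ℝ) : ℂ) * z ^ k) Filter.atTop := by
  have hg : ∀ k, |g k| ≤ b k := fun k =>
    le_of_tendsto' (hlim k).abs (fun N => hb N k)
  rw [tendstoLocallyUniformly_iff_forall_isCompact]
  intro K hK
  obtain ⟨R, hR⟩ := hK.isBounded.exists_norm_le
  have hR0 : 0 ≤ max R 0 := le_max_right _ _
  have hlim2 : Filter.Tendsto (fun N => ∑' k, |g k - (p N).coeff k| * (max R 0) ^ k) Filter.atTop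
      (nhds (∑' _k : ℕ, (0 : ℝ))) := by
    refine tendsto_tsum_of_dominated_convergence (bound := fun k => 2 * (b k * (max R 0) ^ k))
      ((hs _ hR0).mul_left 2) (fun k => ?_) (Filter.Eventually.of_forall (fun N k => ?_))
    · have := ((tendsto_const_nhds (x := g k)).sub (hlim k)).abs.mul_const ((max R 0) ^ k)
      simpa using this
    · rw [Real.norm_eq_abs, abs_of_nonneg (by positivity), ← mul_assoc]
      gcongr
      have := hb N k
      have := hg k
      have := abs_sub (g k) ((p N).coeff k)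
      linarith
  rw [tsum_zero] at hlim2
  rw [Metric.tendstoUniformlyOn_iff]
  intro ε hε
  filter_upwards [hlim2.eventually (gt_mem_nhds hε)] with N hN z hz
  have hzR : ‖z‖ ≤ max R 0 := (hR z hz).trans (le_max_left _ _)
  have e1 : aeval z (p N) = ∑' k : ℕ, (((p N).coeff k : ℝ) : ℂ) * z ^ k := by
    rw [aeval_eq_sum_range, tsum_eq_sum (s := range ((p N).natDegree + 1))]
    · simp
    · intro k hk
      rw [coeff_eq_zero_of_natDegree_lt (by simpa using hk)]; simp
  have sm : ∀ c : ℕ → ℝ, (∀ k, |c k| ≤ 2 * b k) → Summable (fun k => ‖((c k : ℝ) : ℂ) * z ^ k‖) := by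
    intro c hc
    refine Summable.of_nonneg_of_le (fun _ => norm_nonneg _) (fun k => ?_) ((hs _ hR0).mul_left 2)
    rw [norm_mul, norm_pow, Complex.norm_real, Real.norm_eq_abs, ← mul_assoc]
    have := hc k
    have := abs_nonneg (c k)
    gcongr
    linarith
  have hb0 : ∀ k, 0 ≤ b k := fun k => (abs_nonneg _).trans (hg k)
  have hd : ∀ k, |g k - (p N).coeff k| ≤ 2 * b k := fun k => by
    have := hb N k
    have := hg k
    have := abs_sub (g k) ((p N).coeff k)
    linarith
  rw [e1, dist_eq_norm, ← Summable.tsum_sub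
    (sm g (fun k => by have := hg k; have := hb0 k; linarith)).of_norm
    (sm _ (fun k => by have := hb N k; have := hb0 k; linarith)).of_norm]
  refine lt_of_le_of_lt ?_ hN
  have e2 : ∀ k, ((g k : ℝ) : ℂ) * z ^ k - (((p N).coeff k : ℝ) : ℂ) * z ^ k =
      ((g k - (p N).coeff k : ℝ) : ℂ) * z ^ k := fun k => by push_cast; ring
  simp only [e2]
  refine (norm_tsum_le_tsum_norm (sm _ hd)).trans (Summable.tsum_le_tsum (fun k => ?_) (sm _ hd) ?_)
  · rw [norm_mul, norm_pow, Complex.norm_real, Real.norm_eq_abs]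
    gcongr
  · refine Summable.of_nonneg_of_le (fun _ => by positivity) (fun k => ?_) ((hs _ hR0).mul_left 2)
    rw [← mul_assoc]
    gcongr
    exact hd k

end Pool.Agent.P.MP_dd1f31_an
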