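import Pool.Agent.P.MP_dd1f31_an.Bern

/-!
For every `s ≥ 1/2` the Jensen polynomials of `k ^ s / k!` have only real roots.
-/

set_option autoImplicit false

namespace Pool.Agent.P.MP_dd1f31_an

open Polynomial Filter Topology

theorem RR.of_smul {γ δ : ℕ → ℝ} {c : ℝ} (h : ∀ k, γ k = c * δ k) {N : ℕ}
    (hγ : RR (jen γ N)) : RR (jen δ N) := by
  have e : jen γ N = C c * jen δ N := by
    ext k; rw [coeff_C_mul, coeff_jen, coeff_jen, h]; ring
  intro z hz
  exact hγ z (by rw [e, map_mul, hz, mul_zero])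

/-- the sequence -/
noncomputable def gam (s : ℝ) (k : ℕ) : ℝ := (k : ℝ) ^ s / (k.factorial : ℝ)

theorem rr_low {s : ℝ} (h0 : 1 / 2 ≤ s) (h1 : s < 1) (N : ℕ) : RR (jen (gam s) (N + 1)) := by
  have hs : 0 < s := by linarith
  set W : ℕ → ℝ := fun k => ∫ v in Set.Ioi (0 : ℝ), wb s k v with hW
  have hWp : ∀ k, 0 < k → 0 < W k := fun k hk => wb_pos hs h1.le k hk
  have hG := Real.Gamma_pos_of_pos (show 0 < 1 - s by linarith)
  have := rr_good (fun k => if k = 0 then (1 - s) / W 1 else 1 / (k.factorial * W k))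
    (fun k => Real.Gamma (1 - s) * ((k : ℝ) ^ s * W k)) (1 - s) (by linarith) (by linarith)
    (fun k => by
      rcases Nat.eq_zero_or_pos k with rfl | hk
      · simp [div_eq_mul_inv]
      · have h2 : ((k : ℝ) + 1) * W (k + 1) = ((k : ℝ) + (1 - s)) * W k := wb_rec hs h1.le k hk
        have h3 := hWp k hk
        have h4 := hWp (k + 1) (by omega)
        have h5 : (0 : ℝ) < k.factorial := by positivity
        simp only [if_neg hk.ne', if_neg (Nat.succ_ne_zero k), Nat.factorial_succ]
        push_cast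
        field_simp
        linear_combination (-1 : ℝ) * h2)
    (by have := hWp 1 one_pos; simpa using this) (good_beta hs h1) N
    (by have := hWp (N + 1) (by omega); positivity)
  refine RR.of_smul (c := Real.Gamma (1 - s)) (fun k => ?_) this
  rcases Nat.eq_zero_or_pos k with rfl | hk
  · simp [gam, hs.ne']
  · have h3 := hWp k hk
    have h5 : (0 : ℝ) < k.factorial := by positivity
    simp only [if_neg hk.ne', gam]
    field_simp

theorem rr_mid {s : ℝ} (h0 : 1 ≤ s) (h1 : s < 2) (N : ℕ) : RR (jen (gam s) (N + 1)) := by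
  have hG := Real.Gamma_pos_of_pos (show 0 < 1 - (s - 1) by linarith)
  have := rr_good (fun k => (k : ℝ) / k.factorial) _ 0 le_rfl (by norm_num)
    (fun k => by
      have h5 : (0 : ℝ) < k.factorial := by positivity
      rw [Nat.factorial_succ]
      push_cast
      field_simp
      ring)
    (by simp) (good_rpow (α := s - 1) (by linarith) (by linarith)) N
    (by simp only [if_neg (Nat.succ_ne_zero N)]; positivity)
  refine RR.of_smul (c := Real.Gamma (1 - (s - 1))) (fun k => ?_) this
  rcases Nat.eq_zero_or_pos k with rfl | hk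
  · simp [gam, (show s ≠ 0 by linarith)]
  · have h3 : (0 : ℝ) < k := by positivity
    simp only [if_neg hk.ne', gam]
    rw [Real.rpow_sub_one h3.ne']
    field_simp

theorem rr_step {s : ℝ} (h0 : 0 < s) (N : ℕ) (h : RR (jen (gam s) (N + 1))) :
    RR (jen (gam (s + 1)) (N + 1)) := by
  have e : jen (gam (s + 1)) (N + 1) = X * derivative (jen (gam s) (N + 1)) := by
    ext k
    cases k with
    | zero => simp [coeff_jen, gam, (show s + 1 ≠ 0 by linarith)]
    | succ k =>
      rw [coeff_X_mul, coeff_derivative, coeff_jen, coeff_jen, gam, gam,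
        Real.rpow_add_one (by positivity)]
      push_cast
      ring
  rw [e]
  refine h.xd fun hd => ?_
  have h1 := coeff_eq_zero_of_natDegree_lt (p := jen (gam s) (N + 1)) (n := N + 1) (by omega)
  rw [coeff_jen, Nat.choose_self] at h1
  have : 0 < gam s (N + 1) := by unfold gam; positivity
  simp only [Nat.cast_one, one_mul] at h1
  exact this.ne' h1

theorem rr_all (N m : ℕ) : ∀ s : ℝ, 1 / 2 ≤ s → s < m + 2 → RR (jen (gam s) (N + 1)) := by
  induction m with
  | zero =>
    intro s h0 h1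
    rcases lt_or_ge s 1 with h | h
    · exact rr_low h0 h N
    · exact rr_mid h (by simpa using h1) N
  | succ m ih =>
    intro s h0 h1
    push_cast at h1
    rcases lt_or_ge s (m + 2) with h | h
    · exact ih s h0 h
    · have hm : (0 : ℝ) ≤ m := by positivity
      have := rr_step (s := s - 1) (by linarith) N (ih _ (by linarith) (by linarith))
      rwa [sub_add_cancel] at this

theorem summable_gam (s : ℝ) (hs : 0 ≤ s) (R : ℝ) (hR : 0 ≤ R) :
    Summable fun k : ℕ => (k : ℝ) ^ s / (k.factorial : ℝ) ^ 2 * R ^ k := by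
  refine Summable.of_nonneg_of_le (fun k => by positivity) (fun k => ?_)
    (Real.summable_pow_div_factorial (2 ^ s * R))
  have h1 : (k : ℝ) ^ s ≤ (2 ^ s) ^ k := by
    rw [← Real.rpow_natCast, ← Real.rpow_mul zero_le_two, mul_comm, Real.rpow_mul zero_le_two,
      Real.rpow_natCast]
    exact Real.rpow_le_rpow (by positivity) (by exact_mod_cast Nat.lt_two_pow_self.le) hs
  have h2 : (1 : ℝ) ≤ k.factorial := by exact_mod_cast Nat.factorial_pos k
  rw [mul_pow, div_mul_eq_mul_div]
  gcongr
  nlinarith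

theorem lp_of_half {s : ℝ} (hs : 1 / 2 ≤ s) : ∃ p : ℕ → ℝ[X],
    (∀ n, ∀ z : ℂ, aeval z (p n) = 0 → z.im = 0 ∧ z.re ≤ 0) ∧
    TendstoLocallyUniformly (fun n (z : ℂ) => aeval z (p n))
      (fun z : ℂ => ∑' k : ℕ, (((k : ℝ) ^ s / (k.factorial : ℝ) ^ 2 : ℝ) : ℂ) * z ^ k) atTop := by
  obtain ⟨m, hm⟩ := exists_nat_gt s
  refine ⟨fun n => (jen (gam s) (n + 1)).comp (C (1 / ((n + 1 : ℕ) : ℝ)) * X), fun n z hz => ?_,
    locUnif_of_coeff _ _ (fun k => (k : ℝ) ^ s / (k.factorial : ℝ) ^ 2) (fun k => ?_)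
      (fun n k => ?_) (summable_gam s (by linarith))⟩
  · have hc : (0 : ℝ) < 1 / ((n + 1 : ℕ) : ℝ) := by positivity
    rw [aeval_comp, map_mul, aeval_C, aeval_X] at hz
    have h1 := rr_all n m s hs (by linarith) _ hz
    rw [Complex.coe_algebraMap, Complex.im_ofReal_mul, mul_eq_zero, or_iff_right hc.ne'] at h1
    refine ⟨h1, ?_⟩
    by_contra hre
    obtain ⟨x, rfl⟩ : ∃ x : ℝ, z = algebraMap ℝ ℂ x := ⟨z.re, Complex.ext rfl h1⟩
    rw [← map_mul, aeval_algebraMap_apply_eq_algebraMap_eval,
      map_eq_zero_iff _ (algebraMap ℝ ℂ).injective, eval_jen] at hz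
    have hx : 0 < x := not_le.mp hre
    refine (Finset.sum_pos' (fun k _ => ?_) ⟨1, by simp, ?_⟩).ne' hz
    · unfold gam; positivity
    · have : 0 < (n + 1).choose 1 := by simp
      unfold gam; positivity
  · have h1 := ProbabilityTheory.tendsto_choose_mul_pow_atTop (p := fun n => 1 / (n : ℝ)) (r := 1) k
      (tendsto_const_nhds.congr' (by
        filter_upwards [eventually_gt_atTop 0] with n hn
        rw [mul_one_div_cancel (by positivity)]))
    have h2 := ((h1.comp (tendsto_add_atTop_nat 1)).mul_const (gam s k))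
    convert h2 using 2 with n
    · rw [comp_C_mul_X_coeff, coeff_jen]; simp only [Function.comp]; ring
    · unfold gam; ring
  · rw [comp_C_mul_X_coeff, coeff_jen, abs_of_nonneg (by unfold gam; positivity)]
    have h1 : (((n + 1).choose k : ℕ) : ℝ) ≤ ((n + 1 : ℕ) : ℝ) ^ k / k.factorial :=
      Nat.choose_le_pow_div k (n + 1)
    have h2 : (0 : ℝ) < ((n + 1 : ℕ) : ℝ) ^ k := by positivity
    calc _ ≤ ((n + 1 : ℕ) : ℝ) ^ k / k.factorial * gam s k * (1 / ((n + 1 : ℕ) : ℝ)) ^ k := by
          unfold gam; gcongr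
      _ = _ := by unfold gam; rw [one_div, inv_pow]; field_simp

end Pool.Agent.P.MP_dd1f31_an
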