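import Pool.Agent.P.MP_dd1f31_an.Cheb

/-!
Laguerre polynomials with parameter in `[-1, -1/2]` have monotone extreme values; so dominated
combinations of their dilates have only real roots.
-/

set_option autoImplicit false

namespace Pool.Agent.P.MP_dd1f31_an

open Polynomial Finset

/-- all complex roots are real -/
def RR (p : ℝ[X]) : Prop := ∀ z : ℂ, aeval z p = 0 → z.im = 0

theorem im_inv_mul (z r : ℂ) (hr : r.im = 0) (hz : z.im ≠ 0) : (z - r)⁻¹.im * z.im < 0 := by
  have h0 : z - r ≠ 0 := fun h => hz (by rw [sub_eq_zero.mp h, hr])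
  have h1 : 0 < Complex.normSq (z - r) := Complex.normSq_pos.mpr h0
  rw [Complex.inv_im, Complex.sub_im, hr, sub_zero, div_mul_eq_mul_div]
  exact div_neg_of_neg_of_pos (by nlinarith [mul_self_pos.mpr hz]) h1

theorem sum_inv_im (z : ℂ) (hz : z.im ≠ 0) (m : Multiset ℂ) (hm : ∀ r ∈ m, r.im = 0) :
    (m.map fun r => 1 / (z - r)).sum.im * z.im ≤ 0 ∧
      (m ≠ 0 → (m.map fun r => 1 / (z - r)).sum.im * z.im < 0) := by
  induction m using Multiset.induction_on with
  | empty => simp
  | cons r m ih =>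
    have h1 := (ih fun x hx => hm x (Multiset.mem_cons_of_mem hx)).1
    have h2 := im_inv_mul z r (hm r (Multiset.mem_cons_self _ _)) hz
    rw [Multiset.map_cons, Multiset.sum_cons, Complex.add_im, add_mul, one_div]
    exact ⟨by linarith, fun _ => by linarith⟩

theorem logder {p : ℝ[X]} (hp : RR p) {z : ℂ} (hz : z.im ≠ 0) :
    (aeval z (derivative p) / aeval z p).im * z.im ≤ 0 ∧
      (p.natDegree ≠ 0 → (aeval z (derivative p) / aeval z p).im * z.im < 0) := by
  have h0 : aeval z p ≠ 0 := fun h => hz (hp z h)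
  rw [← eval_map_algebraMap] at h0
  have hs := IsAlgClosed.splits (p.map (algebraMap ℝ ℂ))
  rw [← eval_map_algebraMap, ← eval_map_algebraMap, ← derivative_map,
    hs.eval_derivative_div_eval_of_ne_zero h0]
  have h := sum_inv_im z hz (p.map (algebraMap ℝ ℂ)).roots fun r hr =>
    hp r (by rw [← eval_map_algebraMap]; exact (mem_roots'.mp hr).2)
  refine ⟨h.1, fun hd => h.2 fun h1 => hd ?_⟩
  have := hs.natDegree_eq_card_roots
  rwa [h1, natDegree_map, Multiset.card_zero] at this

theorem RR.step {p : ℝ[X]} (hp : RR p) {β : ℝ} (hβ : 0 < β) :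
    RR (C β * p + X * derivative p + X * p) := by
  intro z hz
  by_contra him
  have h0 : aeval z p ≠ 0 := fun h => him (hp z h)
  have hz0 : z ≠ 0 := fun h => him (by simp [h])
  have h1 : (β : ℂ) * (z - 0)⁻¹ + aeval z (derivative p) / aeval z p + 1 = 0 := by
    simp only [map_add, map_mul, aeval_C, aeval_X, Complex.coe_algebraMap] at hz
    rw [sub_zero]
    field_simp
    linear_combination hz
  have h2 := congrArg (fun w : ℂ => w.im * z.im) h1
  simp only [Complex.add_im, Complex.one_im, add_zero, Complex.zero_im, zero_mul,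
    Complex.im_ofReal_mul, add_mul] at h2
  have h3 := (logder hp him).1
  have h4 := im_inv_mul z 0 rfl him
  nlinarith

theorem RR.xd {p : ℝ[X]} (hp : RR p) (hd : p.natDegree ≠ 0) : RR (X * derivative p) := by
  intro z hz
  by_contra him
  have hz0 : z ≠ 0 := fun h => him (by simp [h])
  simp only [map_mul, aeval_X, mul_eq_zero, hz0, false_or] at hz
  have h3 := (logder hp him).2 hd
  simp [hz] at h3

/-- partial fractions over the simple real roots of `q` -/
theorem im_zero_of_signs (q R : ℂ[X]) (a b : ℝ) (ha : 0 < a) (hq : q ≠ 0)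
    (hR : R.degree < q.degree)
    (h : ∀ ξ, q.eval ξ = 0 → ξ.im = 0 ∧ q.derivative.eval ξ ≠ 0 ∧
      ∃ c : ℝ, c ≤ 0 ∧ R.eval ξ = c * q.derivative.eval ξ)
    (z : ℂ) (hz : (a * z + b) * q.eval z + R.eval z = 0) : z.im = 0 := by
  classical
  by_contra him
  have hs := IsAlgClosed.splits q
  have hnd : q.roots.Nodup := by
    rw [Multiset.nodup_iff_count_le_one]
    intro ξ
    rw [count_roots]
    by_contra hc
    obtain ⟨h1, h2⟩ := (one_lt_rootMultiplicity_iff_isRoot hq).mp (not_le.mp hc)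
    exact (h ξ h1).2.1 h2
  set Z := q.roots.toFinset with hZ
  have hmem : ∀ ξ ∈ Z, q.eval ξ = 0 := fun ξ hξ =>
    (mem_roots'.mp (Multiset.mem_toFinset.mp hξ)).2
  have hqe : q = C q.leadingCoeff * Lagrange.nodal Z id := by
    conv_lhs => rw [hs.eq_prod_roots]
    rw [Lagrange.nodal, Finset.prod, hZ, Multiset.toFinset_val, hnd.dedup]
    rfl
  have hc : q.leadingCoeff ≠ 0 := leadingCoeff_ne_zero.mpr hq
  have hcard : R.degree < (Z.card : ℕ) := by
    rwa [hZ, Multiset.toFinset_card_of_nodup hnd, ← hs.natDegree_eq_card_roots,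
      ← degree_eq_natDegree hq]
  have hne : ∀ ξ ∈ Z, z ≠ id ξ := fun ξ hξ e => him (by rw [e]; exact (h ξ (hmem ξ hξ)).1)
  have hRz : R.eval z = q.eval z * ∑ ξ ∈ Z, (R.eval ξ / q.derivative.eval ξ) * (z - ξ)⁻¹ := by
    conv_lhs => rw [Lagrange.eq_interpolate (s := Z) (v := id) (Set.injOn_id _) hcard,
      Lagrange.eval_interpolate_not_at_node _ hne]
    have e1 : q.eval z = q.leadingCoeff * (Lagrange.nodal Z id).eval z := by
      conv_lhs => rw [hqe]
      rw [eval_mul, eval_C]
    rw [e1, mul_comm q.leadingCoeff, mul_assoc, mul_sum _ _ q.leadingCoeff]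
    congr 1
    refine sum_congr rfl fun ξ hξ => ?_
    have e2 : q.derivative.eval ξ =
        q.leadingCoeff * (derivative (Lagrange.nodal Z id)).eval ξ := by
      conv_lhs => rw [hqe]
      rw [derivative_C_mul, eval_mul, eval_C]
    rw [Lagrange.nodalWeight_eq_eval_derivative_nodal hξ, e2]
    simp only [id]
    rw [div_eq_mul_inv, mul_inv]
    field_simp
  have hqz : q.eval z ≠ 0 := fun e => him (h z e).1
  rw [hRz, mul_comm (q.eval z), ← add_mul, mul_eq_zero, or_iff_left hqz] at hz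
  have h2 := congrArg (fun w : ℂ => w.im * z.im) hz
  simp only [Complex.add_im, Complex.im_ofReal_mul, Complex.ofReal_im, add_zero, Complex.zero_im,
    zero_mul, add_mul, Complex.im_sum, sum_mul] at h2
  have h3 : 0 ≤ ∑ ξ ∈ Z, ((R.eval ξ / q.derivative.eval ξ) * (z - ξ)⁻¹).im * z.im := by
    refine sum_nonneg fun ξ hξ => ?_
    obtain ⟨h4, h5, c, hc0, h6⟩ := h ξ (hmem ξ hξ)
    rw [h6, mul_div_cancel_right₀ _ h5, Complex.im_ofReal_mul, mul_assoc]
    exact mul_nonneg_of_nonpos_of_nonpos hc0 (im_inv_mul z ξ h4 him).le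
  nlinarith [mul_self_pos.mpr him]

/-- the Jensen polynomial -/
noncomputable def jen (γ : ℕ → ℝ) (N : ℕ) : ℝ[X] :=
  ∑ k ∈ range (N + 1), monomial k ((N.choose k : ℝ) * γ k)

theorem coeff_jen (γ : ℕ → ℝ) (N k : ℕ) : (jen γ N).coeff k = (N.choose k : ℝ) * γ k := by
  unfold jen
  rw [finsetSum_coeff]
  simp only [coeff_monomial]
  rw [sum_ite_eq']
  split_ifs with h
  · rfl
  · rw [Nat.choose_eq_zero_of_lt (by simpa using h)]; simp

theorem eval_jen (γ : ℕ → ℝ) (N : ℕ) (x : ℝ) :
    (jen γ N).eval x = ∑ k ∈ range (N + 1), (N.choose k : ℝ) * γ k * x ^ k := by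
  unfold jen
  simp [eval_finsetSum]

theorem natDegree_jen_le (γ : ℕ → ℝ) (N : ℕ) : (jen γ N).natDegree ≤ N := by
  rw [natDegree_le_iff_coeff_eq_zero]
  intro k hk
  rw [coeff_jen, Nat.choose_eq_zero_of_lt hk]; simp

theorem jen_succ (a : ℕ → ℝ) (β : ℝ) (ha : ∀ k : ℕ, (k + β) * a (k + 1) = a k) (N : ℕ) :
    jen a (N + 1) = C β * jen (fun k => a (k + 1)) N +
      X * derivative (jen (fun k => a (k + 1)) N) + X * jen (fun k => a (k + 1)) N := by
  ext k
  cases k with
  | zero =>
    have := ha 0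
    simp only [coeff_add, coeff_jen, mul_coeff_zero, coeff_X_zero]
    simp at this ⊢
    exact this.symm
  | succ k =>
    simp only [coeff_add, coeff_C_mul, coeff_jen, coeff_X_mul, coeff_derivative,
      Nat.choose_succ_succ]
    have := ha (k + 1)
    push_cast at this ⊢
    linear_combination (-(N.choose (k + 1) : ℝ)) * this

theorem rr_jen (N : ℕ) : ∀ (a : ℕ → ℝ) (β : ℝ), 0 < β →
    (∀ k : ℕ, (k + β) * a (k + 1) = a k) → a 0 ≠ 0 → RR (jen a N) := by
  induction N with
  | zero =>
    intro a β _ _ h0 z hz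
    simp [jen, h0] at hz
  | succ N ih =>
    intro a β hβ ha h0
    rw [jen_succ a β ha]
    refine (ih _ (β + 1) (by linarith) (fun k => ?_) fun h => h0 ?_).step hβ
    · have := ha (k + 1)
      push_cast at this
      linear_combination this
    · rw [← ha 0, h, mul_zero]

theorem derivative_jen (a : ℕ → ℝ) (N : ℕ) :
    derivative (jen a (N + 1)) = C ((N : ℝ) + 1) * jen (fun k => a (k + 1)) N := by
  ext k
  simp only [coeff_C_mul, coeff_jen, coeff_derivative]
  have : ((N + 1 : ℕ) : ℝ) * (N.choose k : ℝ) = ((N + 1).choose (k + 1) : ℝ) * ((k + 1 : ℕ) : ℝ) := by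
    exact_mod_cast Nat.add_one_mul_choose_eq N k
  push_cast at this
  linear_combination (-a (k + 1)) * this

theorem jen_ode (a : ℕ → ℝ) (β : ℝ) (ha : ∀ k : ℕ, (k + β) * a (k + 1) = a k) (N : ℕ) :
    X * derivative (derivative (jen a N)) + C β * derivative (jen a N) +
      X * derivative (jen a N) = C (N : ℝ) * jen a N := by
  have hc : ∀ k : ℕ, (N.choose (k + 1) : ℝ) * (k + 1) = (N.choose k : ℝ) * (N - k) := by
    intro k
    rcases le_or_gt k N with h | h
    · have := Nat.choose_succ_right_eq N k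
      have h2 := congrArg (Nat.cast : ℕ → ℝ) this
      push_cast [Nat.cast_sub h] at h2
      exact h2
    · rw [Nat.choose_eq_zero_of_lt h, Nat.choose_eq_zero_of_lt (by omega)]; simp
  ext k
  cases k with
  | zero =>
    have := ha 0
    simp only [coeff_add, coeff_jen, mul_coeff_zero, coeff_X_zero, coeff_derivative]
    simp at this ⊢
    linear_combination (N : ℝ) * this
  | succ k =>
    simp only [coeff_add, coeff_C_mul, coeff_jen, coeff_X_mul, coeff_derivative]
    have h1 := ha (k + 1)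
    have h2 := hc (k + 1)
    push_cast at h1 h2 ⊢
    linear_combination ((N.choose (k + 1 + 1) : ℝ) * (k + 1 + 1)) * h1 + a (k + 1) * h2

/-- the Sonin function is monotone -/
theorem sonin (y : ℝ[X]) (β n : ℝ) (hβ : β ≤ 1 / 2)
    (h : X * derivative (derivative y) + C β * derivative y + X * derivative y = C n * y)
    {ξ x : ℝ} (h1 : ξ ≤ x) (h2 : x ≤ 0) :
    n * y.eval x ^ 2 - x * y.derivative.eval x ^ 2 ≤
      n * y.eval ξ ^ 2 - ξ * y.derivative.eval ξ ^ 2 := by
  set S : ℝ[X] := C n * y ^ 2 - X * y.derivative ^ 2 with hS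
  have hd : ∀ t, t ≤ 0 → S.derivative.eval t ≤ 0 := by
    intro t ht
    have e := congrArg (eval t) h
    simp only [eval_add, eval_mul, eval_X, eval_C] at e
    have e2 : S.derivative.eval t = y.derivative.eval t ^ 2 * (2 * β - 1 + 2 * t) := by
      simp only [hS, derivative_sub, derivative_mul, derivative_C, derivative_X, derivative_sq,
        eval_sub, eval_add, eval_mul, eval_C, eval_X, eval_pow, eval_zero, eval_one]
      linear_combination (-2 * y.derivative.eval t) * e
    rw [e2]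
    exact mul_nonpos_of_nonneg_of_nonpos (sq_nonneg _) (by linarith)
  have hanti : AntitoneOn (fun t => S.eval t) (Set.Iic 0) := by
    refine antitoneOn_of_deriv_nonpos (convex_Iic 0) S.continuous.continuousOn
      S.differentiable.differentiableOn fun t ht => ?_
    rw [S.deriv]
    exact hd t (Set.mem_Iic.mp (interior_subset ht))
  have := hanti (show ξ ∈ Set.Iic 0 from h1.trans h2) (show x ∈ Set.Iic 0 from h2) h1
  simpa [hS] using this

/-- the dual description of the cone spanned by the sequences `1 - τ ^ k` -/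
def Good (b : ℕ → ℝ) : Prop :=
  ∀ (N : ℕ) (c : ℕ → ℝ), (∀ τ ∈ Set.Icc (0 : ℝ) 1,
    ∑ k ∈ range (N + 1), c k * τ ^ k ≤ ∑ k ∈ range (N + 1), c k) →
      0 ≤ ∑ k ∈ range (N + 1), c k * b k

theorem pos_of_rec (a : ℕ → ℝ) (β : ℝ) (hβ : 0 ≤ β) (ha : ∀ k : ℕ, (k + β) * a (k + 1) = a k)
    (h1 : 0 < a 1) (k : ℕ) : 0 < a (k + 1) := by
  induction k with
  | zero => exact h1
  | succ k ih =>
    have := ha (k + 1)
    rw [← this] at ih
    exact (pos_iff_pos_of_mul_pos ih).mp (by positivity)

theorem rr_good (a b : ℕ → ℝ) (β : ℝ) (hβ0 : 0 ≤ β) (hβ : β ≤ 1 / 2)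
    (ha : ∀ k : ℕ, (k + β) * a (k + 1) = a k) (h1 : 0 < a 1) (hb : Good b) (N : ℕ)
    (hN : 0 < b (N + 1)) : RR (jen (fun k => a k * b k) (N + 1)) := by
  have hpos := pos_of_rec a β hβ0 ha h1
  set y := jen a (N + 1) with hy
  set P := jen (fun k => a k * b k) (N + 1) with hP
  set q := derivative y with hq
  have hqe : q = C ((N : ℝ) + 1) * jen (fun k => a (k + 1)) N := derivative_jen a N
  have hN1 : (0 : ℝ) < N + 1 := by positivity
  have hqR : RR q := by
    intro z hz
    rw [hqe, map_mul, aeval_C, mul_eq_zero] at hz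
    refine rr_jen N _ (β + 1) (by linarith) (fun k => ?_) h1.ne' z (hz.resolve_left ?_)
    · have := ha (k + 1)
      push_cast at this
      linear_combination this
    · exact (map_ne_zero_iff _ (algebraMap ℝ ℂ).injective).mpr hN1.ne'
  have hqpos : ∀ x, 0 ≤ x → 0 < q.eval x := by
    intro x hx
    rw [hqe, eval_mul, eval_C, eval_jen]
    refine mul_pos hN1 (sum_pos' (fun k _ => ?_) ⟨0, by simp, by simpa using h1⟩)
    have := hpos k
    positivity
  have hode := jen_ode a β ha (N + 1)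
  rw [← hy, ← hq] at hode
  have key : ∀ ξ : ℝ, q.eval ξ = 0 → q.derivative.eval ξ ≠ 0 ∧
      P.eval ξ / q.derivative.eval ξ ≤ 0 := by
    intro ξ hξ
    have hneg : ξ < 0 := by
      by_contra hc
      exact (hqpos ξ (not_lt.mp hc)).ne' hξ
    have e := congrArg (eval ξ) hode
    simp only [eval_add, eval_mul, eval_X, eval_C, hξ, mul_zero, add_zero] at e
    push_cast at e
    have hson : ∀ x, ξ ≤ x → x ≤ 0 → ((N + 1 : ℕ) : ℝ) * y.eval x ^ 2 - x * q.eval x ^ 2 ≤
        ((N + 1 : ℕ) : ℝ) * y.eval ξ ^ 2 := fun x h1 h2 => by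
      have := sonin y β _ hβ hode h1 h2
      rwa [← hq, hξ, zero_pow two_ne_zero, mul_zero, sub_zero] at this
    have hy0 : y.eval ξ ≠ 0 := by
      intro h0
      have hq0 : q ≠ 0 := fun h => by simpa [h] using hqpos 0 le_rfl
      refine hq0 (eq_zero_of_infinite_isRoot q ((Set.Ioo_infinite hneg).mono fun x hx => ?_))
      have h3 := hson x hx.1.le hx.2.le
      rw [h0] at h3
      have h4 : 0 ≤ ((N + 1 : ℕ) : ℝ) * y.eval x ^ 2 := by positivity
      have h5 : q.eval x ^ 2 ≤ 0 := by nlinarith [hx.2]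
      exact pow_eq_zero_iff two_ne_zero |>.mp (le_antisymm h5 (sq_nonneg _))
    have hd0 : q.derivative.eval ξ ≠ 0 := by
      intro h0
      rw [h0, mul_zero] at e
      exact (mul_ne_zero hN1.ne' hy0) e.symm
    have hPy : 0 ≤ y.eval ξ * P.eval ξ := by
      have := hb (N + 1) (fun k => y.eval ξ * (((N + 1).choose k : ℝ) * a k * ξ ^ k)) fun τ hτ => by
        have e1 : ∑ k ∈ range (N + 1 + 1), y.eval ξ * (((N + 1).choose k : ℝ) * a k * ξ ^ k) * τ ^ k
            = y.eval ξ * y.eval (ξ * τ) := by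
          rw [hy, eval_jen a (N + 1) (ξ * τ), mul_sum]
          exact sum_congr rfl fun k _ => by rw [mul_pow]; ring
        rw [e1, ← mul_sum, ← eval_jen, ← hy]
        have h3 := hson (ξ * τ) (by nlinarith [hτ.2]) (by nlinarith [hτ.1])
        have h4 : 0 ≤ -(ξ * τ) * q.eval (ξ * τ) ^ 2 :=
          mul_nonneg (by nlinarith [hτ.1]) (sq_nonneg _)
        push_cast at h3
        have h5 : y.eval (ξ * τ) ^ 2 ≤ y.eval ξ ^ 2 := by
          by_contra hc
          nlinarith [mul_pos hN1 (sub_pos.mpr (not_le.mp hc))]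
        nlinarith [sq_nonneg (y.eval ξ - y.eval (ξ * τ))]
      rw [hP, eval_jen (fun k => a k * b k), mul_sum]
      exact this.trans_eq (sum_congr rfl fun k _ => by ring)
    refine ⟨hd0, ?_⟩
    have e3 : P.eval ξ / q.derivative.eval ξ =
        ξ * (y.eval ξ * P.eval ξ) / (((N : ℝ) + 1) * y.eval ξ ^ 2) := by
      rw [div_eq_div_iff hd0 (by positivity)]
      linear_combination (-(y.eval ξ * P.eval ξ)) * e
    rw [e3]
    exact div_nonpos_of_nonpos_of_nonneg (mul_nonpos_of_nonpos_of_nonneg hneg.le hPy)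
      (by positivity)
  -- division with remainder
  have hqN : q.coeff N = ((N : ℝ) + 1) * a (N + 1) := by
    rw [hqe, coeff_C_mul, coeff_jen]; simp
  have hqN0 : 0 < q.coeff N := by rw [hqN]; exact mul_pos hN1 (hpos N)
  have hqd : q.natDegree ≤ N := by
    rw [hqe]; exact (natDegree_C_mul_le _ _).trans (natDegree_jen_le _ _)
  have hqdeg : q.degree = N := degree_eq_of_le_of_coeff_ne_zero
    (degree_le_of_natDegree_le hqd) hqN0.ne'
  set α : ℝ := b (N + 1) / (N + 1) with hα
  set P1 := P - C α * X * q with hP1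
  set κ : ℝ := P1.coeff N / q.coeff N with hκ
  set R := P1 - C κ * q with hR
  have hRd : R.degree < N := by
    rw [degree_lt_iff_coeff_zero]
    intro m hm
    rcases hm.eq_or_lt with rfl | hm
    · rw [hR, coeff_sub, coeff_C_mul, hκ, div_mul_cancel₀ _ hqN0.ne', sub_self]
    · obtain ⟨m, rfl⟩ : ∃ m', m = m' + 1 := ⟨m - 1, by omega⟩
      rw [hR, hP1, coeff_sub, coeff_sub, coeff_C_mul, mul_assoc, coeff_C_mul, coeff_X_mul,
        coeff_eq_zero_of_natDegree_lt (p := q) (n := m + 1) (by omega), mul_zero, sub_zero]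
      rcases (show N ≤ m by omega).eq_or_lt with rfl | hm'
      · rw [hqN, hP, coeff_jen, hα]; simp; field_simp; ring
      · rw [coeff_eq_zero_of_natDegree_lt (p := q) (by omega), hP, coeff_jen,
          Nat.choose_eq_zero_of_lt (by omega)]; simp
  intro z hz
  have hinj : Function.Injective (algebraMap ℝ ℂ) := (algebraMap ℝ ℂ).injective
  refine im_zero_of_signs (q.map (algebraMap ℝ ℂ)) (R.map (algebraMap ℝ ℂ)) α κ
    (div_pos hN hN1) ?_ ?_ (fun ξ hξ => ?_) z ?_
  · rw [Ne, Polynomial.map_eq_zero_iff hinj]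
    intro h; simp [h] at hqN0
  · rwa [degree_map, degree_map, hqdeg]
  · rw [eval_map_algebraMap] at hξ
    have him := hqR ξ hξ
    obtain ⟨x, rfl⟩ : ∃ x : ℝ, ξ = algebraMap ℝ ℂ x := ⟨ξ.re, Complex.ext rfl him⟩
    rw [aeval_algebraMap_apply_eq_algebraMap_eval, map_eq_zero_iff _ hinj] at hξ
    obtain ⟨k1, k2⟩ := key x hξ
    rw [derivative_map, eval_map_algebraMap, eval_map_algebraMap,
      aeval_algebraMap_apply_eq_algebraMap_eval, aeval_algebraMap_apply_eq_algebraMap_eval]
    refine ⟨him, (map_ne_zero_iff _ hinj).mpr k1, _, k2, ?_⟩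
    have : R.eval x = P.eval x / q.derivative.eval x * q.derivative.eval x := by
      rw [div_mul_cancel₀ _ k1]; simp [hR, hP1, hξ]
    rw [this]; simp
  · rw [eval_map_algebraMap, eval_map_algebraMap]
    simp only [hR, hP1, map_sub, map_mul, aeval_C, aeval_X, hz, Complex.coe_algebraMap]
    ring

end Pool.Agent.P.MP_dd1f31_an
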