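import Pool.Agent.P.MP_dd1f31_an.Cheb

/-!
If `g k = μ(Ω) - ∫ τ ^ (2 k) dμ` with `0 ≤ τ ≤ 1`, then `∑ g k (4 z) ^ k / (2 k)!` is a locally
uniform limit of polynomials with real nonpositive roots.
-/

set_option autoImplicit false

namespace Pool.Agent.P.MP_dd1f31_an

open Polynomial Polynomial.Chebyshev Finset MeasureTheory

theorem integral_comp_nat {Ω : Type} [MeasurableSpace Ω] (μ : Measure Ω) [IsFiniteMeasure μ]
    (j : Ω → ℕ) (hj : Measurable j) (N : ℕ) (hN : ∀ ω, j ω ≤ N) (f : ℕ → ℝ) :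
    ∫ ω, f (j ω) ∂μ = ∑ i ∈ range (N + 1), μ.real (j ⁻¹' {i}) * f i := by
  have e : ∀ ω, f (j ω) = ∑ i ∈ range (N + 1), (j ⁻¹' {i}).indicator (fun _ => f i) ω := by
    intro ω
    rw [sum_eq_single (j ω)]
    · rw [Set.indicator_of_mem (by simp)]
    · intro i _ hi
      rw [Set.indicator_of_notMem (by simpa using hi.symm)]
    · intro h; exact absurd (mem_range.mpr (Nat.lt_succ_of_le (hN ω))) h
  simp only [e]
  rw [integral_finsetSum]
  · refine sum_congr rfl (fun i _ => ?_)
    rw [integral_indicator_const _ (hj (measurableSet_singleton i)), smul_eq_mul]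
  · intro i _
    exact (integrable_const _).indicator (hj (measurableSet_singleton i))

theorem floor_tendsto (t : ℝ) (ht : 0 ≤ t) :
    Filter.Tendsto (fun N : ℕ => ((⌊(N : ℝ) * t⌋₊ : ℕ) : ℝ) / N) Filter.atTop (nhds t) := by
  have h := (tendsto_nat_floor_mul_div_atTop ht).comp (tendsto_natCast_atTop_atTop (R := ℝ))
  refine h.congr (fun N => ?_)
  simp [mul_comm]

theorem mixture {Ω : Type} [MeasurableSpace Ω] (μ : Measure Ω) [IsFiniteMeasure μ]
    (τ : Ω → ℝ) (hτ : Measurable τ) (h0 : ∀ ω, 0 ≤ τ ω) (h1 : ∀ ω, τ ω ≤ 1) :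
    ∃ p : ℕ → ℝ[X],
      (∀ n, ∀ z : ℂ, aeval z (p n) = 0 → z.im = 0 ∧ z.re ≤ 0) ∧
      TendstoLocallyUniformly (fun n (z : ℂ) => aeval z (p n))
        (fun z : ℂ => ∑' k : ℕ,
          ((4 ^ k / ((2 * k).factorial : ℝ) * (μ.real Set.univ - ∫ ω, τ ω ^ (2 * k) ∂μ) : ℝ) : ℂ) *
            z ^ k) Filter.atTop := by
  set j : ℕ → Ω → ℕ := fun N ω => ⌊(N : ℝ) * τ ω⌋₊ with hjdef
  have hjm : ∀ N, Measurable (j N) := fun N =>
    Nat.measurable_floor.comp (measurable_const.mul hτ)
  have hjN : ∀ N ω, j N ω ≤ N := fun N ω => by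
    apply Nat.floor_le_of_le
    have := h1 ω
    have : (0 : ℝ) ≤ N := by positivity
    nlinarith
  set P : ℕ → ℝ[X] := fun N => C (μ.real Set.univ + 1 / (N : ℝ)) * T ℝ (N : ℤ) -
    ∑ i ∈ range (N + 1), C (μ.real (j N ⁻¹' {i})) * T ℝ (i : ℤ) with hP
  have hcoeff : ∀ N k, (resc N (P N)).coeff k = 4 ^ k / ((2 * k).factorial : ℝ) *
      ((μ.real Set.univ + 1 / (N : ℝ)) * hh N k N - ∫ ω, hh N k (j N ω) ∂μ) := by
    intro N k
    rw [coeff_resc, integral_comp_nat μ (j N) (hjm N) N (hjN N) (hh N k)]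
    simp only [hP, map_sub, map_sum, ← smul_eq_C_mul, map_smul, eval_sub, eval_finsetSum,
      eval_smul, smul_eq_mul]
    rw [sub_mul, sum_mul, mul_assoc, coeff_resc_T, mul_sub, mul_sum]
    congr 1
    · ring
    · refine sum_congr rfl (fun i _ => ?_)
      rw [mul_assoc, coeff_resc_T]; ring
  refine ⟨fun n => resc (n + 1) (P (n + 1)), fun n z hz => ?_, ?_⟩
  · rw [aeval_resc] at hz
    have hpos : (0 : ℝ) < 2 / ((n + 1 : ℕ) : ℝ) ^ 2 := by positivity
    have := roots_of_alternation (n + 1) (P (n + 1)) ?_ ?_ _ hz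
    · simp only [Complex.add_im, Complex.mul_im, Complex.ofReal_re, Complex.ofReal_im, zero_mul,
        add_zero, Complex.one_im, Complex.add_re, Complex.mul_re, sub_zero, Complex.one_re] at this
      obtain ⟨ha, hb⟩ := this
      refine ⟨(mul_eq_zero.mp ha).resolve_left hpos.ne', ?_⟩
      by_contra hcon
      have := mul_pos hpos (not_le.mp hcon)
      linarith
    · simp only [hP]
      refine (natDegree_sub_le _ _).trans (max_le ?_ ?_)
      · refine (natDegree_C_mul_le _ _).trans ?_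
        rw [natDegree_T, Int.natAbs_natCast]
      · refine natDegree_sum_le_of_forall_le _ _ (fun i hi => ?_)
        refine (natDegree_C_mul_le _ _).trans ?_
        rw [natDegree_T]
        have := mem_range.mp hi
        simp; omega
    · intro i hi
      have hs := integral_comp_nat μ (j (n + 1)) (hjm _) (n + 1) (hjN _) (fun _ => 1)
      simp only [integral_const, smul_eq_mul, mul_one] at hs
      simp only [hP, eval_sub, eval_mul, eval_C, eval_finsetSum]
      rw [eval_T_real_node (by simpa using hi), mul_sub, mul_sum]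
      have e : (-1 : ℝ) ^ i * ((μ.real Set.univ + 1 / ((n + 1 : ℕ) : ℝ)) * (-1) ^ i) =
          μ.real Set.univ + 1 / ((n + 1 : ℕ) : ℝ) := by
        rcases neg_one_pow_eq_or ℝ i with h | h <;> rw [h] <;> ring
      rw [e]
      have hle : ∑ l ∈ range (n + 1 + 1), (-1 : ℝ) ^ i *
          (μ.real (j (n + 1) ⁻¹' {l}) * (T ℝ (l : ℤ)).eval (node (n + 1) i)) ≤
          ∑ l ∈ range (n + 1 + 1), μ.real (j (n + 1) ⁻¹' {l}) := by
        refine sum_le_sum (fun l _ => ?_)
        have a1 := eval_T_real_mem_Icc (l : ℤ) (node_mem_Icc (n := n + 1) (i := i))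
        have a2 : 0 ≤ μ.real (j (n + 1) ⁻¹' {l}) := measureReal_nonneg
        rcases neg_one_pow_eq_or ℝ i with h | h <;> rw [h] <;> nlinarith [a1.1, a1.2]
      have : (0 : ℝ) < 1 / ((n + 1 : ℕ) : ℝ) := by positivity
      linarith
  · refine locUnif_of_coeff _ _ (fun k => 4 ^ k / ((2 * k).factorial : ℝ) *
      (2 * μ.real Set.univ + 1)) (fun k => ?_) (fun N k => ?_) (fun R hR => ?_)
    · have t1 : Filter.Tendsto (fun N : ℕ => hh N k N) Filter.atTop (nhds (1 ^ (2 * k))) := by
        refine hh_tendsto k (fun N => N) 1 (tendsto_const_nhds.congr' ?_)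
        filter_upwards [Filter.eventually_gt_atTop 0] with N hN
        rw [div_self (by positivity)]
      have t2 : Filter.Tendsto (fun N : ℕ => ∫ ω, hh N k (j N ω) ∂μ) Filter.atTop
          (nhds (∫ ω, τ ω ^ (2 * k) ∂μ)) := by
        refine tendsto_integral_of_dominated_convergence (fun _ => 1) (fun N => ?_)
          (integrable_const _) (fun N => Filter.Eventually.of_forall (fun ω => ?_))
          (Filter.Eventually.of_forall (fun ω => ?_))
        · exact ((measurable_from_top (f := hh N k)).comp (hjm N)).aestronglyMeasurable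
        · exact abs_hh_le N k _ (hjN N ω)
        · exact hh_tendsto k (fun N => j N ω) (τ ω) (floor_tendsto _ (h0 ω))
      have t3 := (((tendsto_const_nhds (x := μ.real Set.univ)).add
        (tendsto_const_div_atTop_nhds_zero_nat (1 : ℝ))).mul t1).sub t2
      have t4 := (t3.const_mul (4 ^ k / ((2 * k).factorial : ℝ))).comp (Filter.tendsto_add_atTop_nat 1)
      simp only [add_zero, one_pow, mul_one] at t4
      exact t4.congr (fun N => (hcoeff (N + 1) k).symm)
    · rw [hcoeff, abs_mul, abs_of_nonneg (by positivity)]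
      gcongr
      have a1 := abs_hh_le (N + 1) k (N + 1) le_rfl
      have a2 : ‖∫ ω, hh (N + 1) k (j (N + 1) ω) ∂μ‖ ≤ 1 * μ.real Set.univ :=
        norm_integral_le_of_norm_le_const
          (Filter.Eventually.of_forall (fun ω => abs_hh_le _ k _ (hjN _ ω)))
      rw [Real.norm_eq_abs] at a2
      have a3 : 0 ≤ μ.real Set.univ := measureReal_nonneg
      have a4 : (0 : ℝ) ≤ 1 / ((N + 1 : ℕ) : ℝ) := by positivity
      have a5 : 1 / ((N + 1 : ℕ) : ℝ) ≤ 1 := by
        apply div_le_one_of_le₀ _ (by positivity)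
        exact_mod_cast Nat.succ_le_succ (Nat.zero_le N)
      refine (abs_sub _ _).trans ?_
      rw [abs_mul, abs_of_nonneg (by positivity)]
      nlinarith
    · refine Summable.of_nonneg_of_le (fun k => by positivity) (fun k => ?_)
        ((Real.summable_pow_div_factorial (4 * R)).mul_left (2 * μ.real Set.univ + 1))
      have a1 : ((k.factorial : ℕ) : ℝ) ≤ ((2 * k).factorial : ℝ) := by
        exact_mod_cast Nat.factorial_le (by omega)
      have a3 : 0 ≤ μ.real Set.univ := measureReal_nonneg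
      have e : 4 ^ k / ((2 * k).factorial : ℝ) * (2 * μ.real Set.univ + 1) * R ^ k =
          (2 * μ.real Set.univ + 1) * ((4 * R) ^ k / ((2 * k).factorial : ℝ)) := by
        rw [mul_pow]; ring
      rw [e]
      gcongr

end Pool.Agent.P.MP_dd1f31_an
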