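import Pool.Agent.P.MP_dd1f31_an.Bess

/-!
For `0 < s < 1/2` the series decays like a power of the logarithm along the negative axis, which
is impossible in the Laguerre-Polya class.
-/

set_option autoImplicit false

namespace Pool.Agent.P.MP_dd1f31_an

open Real MeasureTheory Set Filter Topology

theorem mid_bound {s L u : ℝ} (h0 : 0 < s) (h1 : s ≤ 1) (hu : 1 ≤ u) (huM : u ≤ L + 2) :
    u ^ (-s - 1) * exp (-(L - u) / 4) ≤
      512 * ((L + 2) ^ (-s) / (L + 2)) * exp ((u - (L + 2)) / 8) := by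
  set M := L + 2 with hM
  have hM0 : 0 < M := by linarith
  have hu0 : 0 < u := by linarith
  set w := M - u with hw
  have hw0 : 0 ≤ w := by linarith
  have a1 : M ≤ u * (1 + w) := by nlinarith
  have a2 : u ^ (-s - 1) ≤ M ^ (-s - 1) * (1 + w) ^ 2 := by
    have b1 : (u * (1 + w)) ^ (-s - 1) ≤ M ^ (-s - 1) := rpow_le_rpow_of_nonpos hM0 a1 (by linarith)
    have b2 : (1 + w) ^ (s + 1) ≤ (1 + w) ^ 2 := by
      rw [← rpow_natCast]
      exact rpow_le_rpow_of_exponent_le (by linarith) (by push_cast; linarith)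
    have b3 : u ^ (-s - 1) = (u * (1 + w)) ^ (-s - 1) * (1 + w) ^ (s + 1) := by
      rw [mul_rpow hu0.le (by linarith), mul_assoc, ← rpow_add (by linarith)]
      simp
    rw [b3]
    gcongr
  have a3 : (1 + w) ^ 2 ≤ 256 * exp (w / 8) := by
    have c1 := add_one_le_exp (w / 16)
    have c2 : exp (w / 8) = exp (w / 16) ^ 2 := by rw [← exp_nat_mul]; congr 1; push_cast; ring
    have c3 : (1 + w) ^ 2 ≤ (16 * exp (w / 16)) ^ 2 := by gcongr; linarith
    rw [c2]; linarith
  have a4 : exp (1 / 2 : ℝ) ≤ 2 := by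
    have c1 := add_one_le_exp (-(1 / 2) : ℝ)
    have c2 : exp (1 / 2 : ℝ) * exp (-(1 / 2)) = 1 := by rw [← exp_add]; simp
    nlinarith [exp_pos (1 / 2 : ℝ)]
  have a5 : exp (w / 8) * exp (-(L - u) / 4) = exp (1 / 2) * exp ((u - M) / 8) := by
    rw [← exp_add, ← exp_add]; congr 1; rw [hw, hM]; ring
  have a6 : M ^ (-s - 1) = M ^ (-s) / M := rpow_sub_one hM0.ne' _
  have a7 : 0 < M ^ (-s) / M := by positivity
  calc u ^ (-s - 1) * exp (-(L - u) / 4)
      ≤ M ^ (-s) / M * (256 * exp (w / 8)) * exp (-(L - u) / 4) := by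
        gcongr
        rw [← a6]
        exact a2.trans (by gcongr)
    _ = 256 * (M ^ (-s) / M) * (exp (1 / 2) * exp ((u - M) / 8)) := by rw [← a5]; ring
    _ ≤ 256 * (M ^ (-s) / M) * (2 * exp ((u - M) / 8)) := by gcongr
    _ = _ := by ring

theorem asym_aux {s C L : ℝ} (h0 : 0 < s) (h1 : s < 1 / 2) (hL : 0 ≤ L) (j g : ℝ → ℝ)
    (dj : ∀ w, HasDerivAt j (g w) w) (cg : Continuous g) (hC : 0 < C)
    (bj : ∀ w, |j w| ≤ C * exp (-w / 4)) (bg : ∀ w, |g w| ≤ C * exp (w / 4))
    (nj : ∀ w ≤ -2, |j w - 1| ≤ 1 / 2) :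
    |-(∫ u in Ioi (0 : ℝ), u ^ (-s) * g (L - u)) - (L + 2) ^ (-s)| ≤ (L + 2) ^ (-s) / 2 +
      (6 * C * exp (-(1 / 4 - s / 2) * L) + 4096 * C * ((L + 2) ^ (-s) / (L + 2))) := by
  have cj : Continuous j := continuous_iff_continuousAt.mpr fun w => (dj w).continuousAt
  set M := L + 2 with hM
  set δ := exp (-L / 2) with hδ
  set ε := exp (-(1 / 4 - s / 2) * L) with hε
  have hδ0 : 0 < δ := exp_pos _
  have hδ1 : δ ≤ 1 := exp_le_one_iff.mpr (by linarith)
  have hM0 : 0 < M := by linarith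
  have hq : exp (1 / 4 : ℝ) ≤ 2 := by
    have c1 := add_one_le_exp (-(1 / 4) : ℝ)
    have c2 : exp (1 / 4 : ℝ) * exp (-(1 / 4)) = 1 := by rw [← exp_add]; simp
    nlinarith [exp_pos (1 / 4 : ℝ)]
  have e1 : exp (-L / 4) * δ ^ (-s) = ε := by
    rw [hδ, ← exp_mul, ← exp_add]; congr 1; ring
  have e2 : exp (L / 4) * δ ^ (-s + 1) = ε := by
    rw [hδ, ← exp_mul, ← exp_add]; congr 1; ring
  have bj1 : ∀ u, u ≤ 1 → |j (L - u)| ≤ 2 * C * exp (-L / 4) := fun u hu => by
    refine (bj _).trans ?_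
    have : exp (-(L - u) / 4) ≤ exp (1 / 4) * exp (-L / 4) := by
      rw [← exp_add]; exact exp_le_exp.mpr (by linarith)
    calc C * exp (-(L - u) / 4) ≤ C * (2 * exp (-L / 4)) := by
          gcongr; exact this.trans (by gcongr)
      _ = _ := by ring
  have iG : IntegrableOn (fun u : ℝ => u ^ (-s) * g (L - u)) (Ioi 0) := by
    refine Integrable.mono' ((gamma_int (a := 1 - s) (r := 1 / 4) (by linarith)
      (by norm_num)).const_mul (C * exp (L / 4))) (Measurable.aestronglyMeasurable (by fun_prop)) ?_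
    filter_upwards [ae_restrict_mem measurableSet_Ioi] with u hu
    have hp := rpow_nonneg (le_of_lt hu) (-s)
    rw [norm_mul, Real.norm_of_nonneg hp, Real.norm_eq_abs, sub_sub_cancel_left]
    calc u ^ (-s) * |g (L - u)| ≤ u ^ (-s) * (C * exp ((L - u) / 4)) := by gcongr; exact bg _
      _ = _ := by
        rw [show (L - u) / 4 = L / 4 + -(1 / 4 * u) by ring, exp_add]; ring
  have iP : ∀ c, 0 < c → IntegrableOn (fun u : ℝ => s * u ^ (-s - 1)) (Ioi c) := fun c hc =>
    (integrableOn_Ioi_rpow_of_lt (by linarith) hc).const_mul s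
  have vP : ∀ c, 0 < c → ∫ u in Ioi c, s * u ^ (-s - 1) = c ^ (-s) := fun c hc => by
    rw [integral_const_mul, integral_Ioi_rpow_of_lt (by linarith) hc, sub_add_cancel]
    field_simp
  have iM : IntegrableOn (fun u : ℝ => s * u ^ (-s - 1) * (j (L - u) - 1)) (Ioi M) := by
    refine Integrable.mono' (iP M hM0) (Measurable.aestronglyMeasurable (by fun_prop)) ?_
    filter_upwards [ae_restrict_mem measurableSet_Ioi] with u hu
    have hu' : M < u := hu
    have hp := rpow_nonneg (hM0.trans hu').le (-s - 1)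
    rw [norm_mul, Real.norm_of_nonneg (by positivity), Real.norm_eq_abs]
    exact mul_le_of_le_one_right (by positivity) ((nj _ (by linarith)).trans (by norm_num))
  have iM' : IntegrableOn (fun u : ℝ => s * u ^ (-s - 1) * j (L - u)) (Ioi M) :=
    (iM.add (iP M hM0)).congr (Eventually.of_forall fun u => by simp only [Pi.add_apply]; ring)
  have cP : ContinuousOn (fun u : ℝ => s * u ^ (-s - 1)) (uIcc δ M) := by
    refine continuousOn_const.mul (continuousOn_id.rpow_const fun u hu => Or.inl ?_)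
    rw [uIcc_of_le (by linarith)] at hu
    exact (hδ0.trans_le hu.1).ne'
  have iI : IntervalIntegrable (fun u : ℝ => s * u ^ (-s - 1) * j (L - u)) volume δ M :=
    (cP.mul (by fun_prop)).intervalIntegrable
  have iD : IntegrableOn (fun u : ℝ => s * u ^ (-s - 1) * j (L - u)) (Ioi δ) := by
    rw [← Ioc_union_Ioi_eq_Ioi (show δ ≤ M by linarith)]
    exact ((intervalIntegrable_iff_integrableOn_Ioc_of_le (by linarith)).1 iI).union iM'
  have iG' := iG.mono_set (Ioi_subset_Ioi hδ0.le)
  -- integration by parts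
  have parts : -(∫ u in Ioi δ, s * u ^ (-s - 1) * j (L - u)) -
      ∫ u in Ioi δ, u ^ (-s) * g (L - u) = 0 - δ ^ (-s) * j (L - δ) := by
    rw [← integral_neg, ← integral_sub (f := fun u => -(s * u ^ (-s - 1) * j (L - u))) iD.neg iG']
    have hd : ∀ u, 0 < u → HasDerivAt (fun u : ℝ => u ^ (-s) * j (L - u))
        (-(s * u ^ (-s - 1) * j (L - u)) - u ^ (-s) * g (L - u)) u := fun u hu => by
      have := (hasDerivAt_rpow_const (p := -s) (Or.inl hu.ne')).mul
        ((dj (L - u)).comp u ((hasDerivAt_id u).const_sub L))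
      refine this.congr_deriv ?_
      simp only [Function.comp]
      ring
    refine integral_Ioi_of_hasDerivAt_of_tendsto (hd δ hδ0).continuousAt.continuousWithinAt
      (fun u hu => hd u (hδ0.trans hu)) (iD.neg.sub iG') ?_
    refine squeeze_zero_norm' (a := fun u => u ^ (-s) * 2) ?_
      (by simpa using (tendsto_rpow_neg_atTop h0).mul_const 2)
    filter_upwards [eventually_ge_atTop M] with u hu
    have hp := rpow_nonneg (hM0.le.trans hu) (-s)
    rw [norm_mul, Real.norm_of_nonneg hp, Real.norm_eq_abs]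
    have := abs_le.mp (nj (L - u) (by linarith))
    gcongr
    exact abs_le.mpr ⟨by linarith, by linarith⟩
  have s1 := intervalIntegral.integral_interval_add_Ioi iG iG'
  have s2 := intervalIntegral.integral_interval_add_Ioi iD iM'
  have s3 : ∫ u in Ioi M, s * u ^ (-s - 1) * j (L - u) =
      (∫ u in Ioi M, s * u ^ (-s - 1) * (j (L - u) - 1)) + M ^ (-s) := by
    rw [← vP M hM0, ← integral_add iM (iP M hM0)]
    exact integral_congr_ae (Eventually.of_forall fun u => by ring)
  have t1 : |∫ u in (0 : ℝ)..δ, u ^ (-s) * g (L - u)| ≤ 2 * C * ε := by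
    rw [← Real.norm_eq_abs]
    refine (intervalIntegral.norm_integral_le_of_norm_le (g := fun u => C * exp (L / 4) * u ^ (-s))
      hδ0.le (Eventually.of_forall fun u hu => ?_)
      ((intervalIntegral.intervalIntegrable_rpow' (by linarith)).const_mul _)).trans ?_
    · have hp := rpow_nonneg hu.1.le (-s)
      rw [norm_mul, Real.norm_of_nonneg hp, Real.norm_eq_abs, mul_comm]
      gcongr
      refine (bg _).trans ?_
      gcongr
      linarith [hu.1]
    · rw [intervalIntegral.integral_const_mul, integral_rpow (Or.inl (by linarith)),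
        zero_rpow (by linarith), sub_zero, ← mul_div_assoc, mul_assoc, e2,
        div_le_iff₀ (by linarith)]
      have : 0 < C * ε := by positivity
      nlinarith
  have t2 : |δ ^ (-s) * j (L - δ)| ≤ 2 * C * ε := by
    have hp := rpow_nonneg hδ0.le (-s)
    rw [abs_mul, abs_of_nonneg hp, ← e1]
    calc δ ^ (-s) * |j (L - δ)| ≤ δ ^ (-s) * (2 * C * exp (-L / 4)) := by gcongr; exact bj1 δ hδ1
      _ = _ := by ring
  have t3 : |∫ u in δ..M, s * u ^ (-s - 1) * j (L - u)| ≤
      2 * C * ε + 4096 * C * (M ^ (-s) / M) := by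
    set B := 512 * C * (M ^ (-s) / M) with hB
    have hB0 : 0 ≤ B := by positivity
    have hd : ∀ u ∈ uIcc δ M, HasDerivAt
        (fun u : ℝ => -(2 * C * exp (-L / 4)) * u ^ (-s) + 8 * B * exp ((u - M) / 8))
        (2 * C * exp (-L / 4) * (s * u ^ (-s - 1)) + B * exp ((u - M) / 8)) u := fun u hu => by
      rw [uIcc_of_le (by linarith)] at hu
      have := ((hasDerivAt_rpow_const (p := -s) (Or.inl (hδ0.trans_le hu.1).ne')).const_mul
        (-(2 * C * exp (-L / 4)))).add
        (((((hasDerivAt_id u).sub_const M).div_const 8).exp).const_mul (8 * B))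
      refine this.congr_deriv ?_
      simp only [id]
      ring
    have iB : IntervalIntegrable (fun u : ℝ => 2 * C * exp (-L / 4) * (s * u ^ (-s - 1)) +
        B * exp ((u - M) / 8)) volume δ M :=
      ((continuousOn_const.mul cP).add (by fun_prop)).intervalIntegrable
    rw [← Real.norm_eq_abs]
    refine (intervalIntegral.norm_integral_le_of_norm_le (by linarith)
      (Eventually.of_forall fun u hu => ?_) iB).trans ?_
    · have hp := rpow_nonneg (hδ0.trans hu.1).le (-s - 1)
      rw [norm_mul, Real.norm_of_nonneg (by positivity), Real.norm_eq_abs]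
      rcases le_total u 1 with h | h
      · refine le_add_of_le_of_nonneg ?_ (by positivity)
        rw [mul_comm]
        gcongr
        exact bj1 u h
      · refine le_add_of_nonneg_of_le (by positivity) ?_
        calc s * u ^ (-s - 1) * |j (L - u)| ≤ 1 * u ^ (-s - 1) * (C * exp (-(L - u) / 4)) := by
              gcongr
              · linarith
              · exact bj _
          _ = C * (u ^ (-s - 1) * exp (-(L - u) / 4)) := by ring
          _ ≤ C * (512 * (M ^ (-s) / M) * exp ((u - M) / 8)) :=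
              mul_le_mul_of_nonneg_left (mid_bound h0 (show s ≤ 1 by linarith) h hu.2) hC.le
          _ = _ := by rw [hB]; ring
    · rw [intervalIntegral.integral_eq_sub_of_hasDerivAt hd iB, sub_self, zero_div, exp_zero, ← e1]
      have p1 : 0 ≤ 2 * C * exp (-L / 4) * M ^ (-s) := by positivity
      have p2 : 0 ≤ 8 * B * exp ((δ - M) / 8) := by positivity
      linarith
  have t4 : |∫ u in Ioi M, s * u ^ (-s - 1) * (j (L - u) - 1)| ≤ M ^ (-s) / 2 := by
    rw [← Real.norm_eq_abs, ← vP M hM0, ← integral_div]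
    refine norm_integral_le_of_norm_le ((iP M hM0).div_const 2) ?_
    filter_upwards [ae_restrict_mem measurableSet_Ioi] with u hu
    have hu' : M < u := hu
    have hp := rpow_nonneg (hM0.trans hu').le (-s - 1)
    rw [norm_mul, Real.norm_of_nonneg (by positivity), Real.norm_eq_abs, div_eq_mul_one_div]
    gcongr
    exact nj _ (by linarith)
  rw [abs_le] at t1 t2 t3 t4 ⊢
  constructor <;> linarith [t1.1, t1.2, t2.1, t2.2, t3.1, t3.2, t4.1, t4.2]

theorem asym {s : ℝ} (h0 : 0 < s) (h1 : s < 1 / 2) : ∃ L0 : ℝ, 0 ≤ L0 ∧ ∀ L, L0 ≤ L →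
    (L + 2) ^ (-s) / 4 ≤ -(Gamma (1 - s) * ser s L) ∧
      -(Gamma (1 - s) * ser s L) ≤ 2 * (L + 2) ^ (-s) := by
  obtain ⟨C, hC, hb⟩ := bessel_bounds
  have hη : 0 < 1 / 4 - s / 2 := by linarith
  have l1 : Tendsto (fun L : ℝ => 6 * C * (L ^ (1 : ℝ) * exp (-(1 / 4 - s / 2) * L) +
      2 * (L ^ (0 : ℝ) * exp (-(1 / 4 - s / 2) * L))) + 4096 * C * (L + 2)⁻¹) atTop
      (𝓝 (6 * C * (0 + 2 * 0) + 4096 * C * 0)) :=
    (((tendsto_rpow_mul_exp_neg_mul_atTop_nhds_zero 1 _ hη).add
      ((tendsto_rpow_mul_exp_neg_mul_atTop_nhds_zero 0 _ hη).const_mul 2)).const_mul _).add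
      ((tendsto_inv_atTop_zero.comp (tendsto_atTop_add_const_right _ 2 tendsto_id)).const_mul _)
  obtain ⟨L0, hL0⟩ := eventually_atTop.mp
    ((l1.eventually (gt_mem_nhds (show _ < (1 / 4 : ℝ) by norm_num))).and (eventually_ge_atTop 0))
  refine ⟨L0, (hL0 L0 le_rfl).2, fun L hL => ?_⟩
  obtain ⟨h2, h3⟩ := hL0 L hL
  have h := asym_aux h0 h1 h3 (ser 0) (ser (0 + 1)) (hasDerivAt_ser le_rfl)
    (continuous_iff_continuousAt.mpr fun w => (hasDerivAt_ser (by norm_num) w).continuousAt) hC
    (fun w => (hb w).1) (fun w => (hb w).2) ser_near_one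
  rw [← ser_repr h0 (by linarith)] at h
  rw [rpow_one, rpow_zero] at h2
  have hM : 0 < L + 2 := by linarith
  have hp : 0 < (L + 2) ^ (-s) := rpow_pos_of_pos hM _
  have h4 : 1 ≤ (L + 2) * (L + 2) ^ (-s) := by
    rw [mul_comm, ← rpow_add_one hM.ne']
    exact one_le_rpow (by linarith) (by linarith)
  have h5 : 6 * C * exp (-(1 / 4 - s / 2) * L) ≤
      6 * C * exp (-(1 / 4 - s / 2) * L) * ((L + 2) * (L + 2) ^ (-s)) :=
    le_mul_of_one_le_right (by positivity) h4
  have h6 := mul_le_mul_of_nonneg_right h2.le hp.le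
  rw [abs_le, div_eq_mul_inv _ (L + 2)] at h
  constructor <;> nlinarith [h.1, h.2]

open Polynomial in
theorem midpoint_ineq {p : ℝ[X]} (hp : RR p) {a b : ℝ} (hab : a ≤ b)
    (h : ∀ x ∈ Icc a b, p.eval x ≠ 0) :
    |p.eval a| * |p.eval b| ≤ |p.eval ((a + b) / 2)| ^ 2 := by
  have hs := IsAlgClosed.splits (p.map (algebraMap ℝ ℂ))
  have e : ∀ x : ℝ, |p.eval x| = ‖(p.map (algebraMap ℝ ℂ)).leadingCoeff‖ *
      ((p.map (algebraMap ℝ ℂ)).roots.map fun r => ‖(x : ℂ) - r‖).prod := fun x => by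
    have := congrArg norm (hs.eval_eq_prod_roots (algebraMap ℝ ℂ x))
    rw [eval_map_algebraMap, aeval_algebraMap_apply_eq_algebraMap_eval, norm_mul,
      Complex.coe_algebraMap, Complex.norm_real, Real.norm_eq_abs] at this
    rw [this]
    congr 1
    induction (p.map (algebraMap ℝ ℂ)).roots using Multiset.induction_on with
    | empty => simp
    | cons r m ih => simp only [Multiset.map_cons, Multiset.prod_cons, norm_mul, ih]
  have key : ∀ m : Multiset ℂ, (∀ r ∈ m, ∃ x : ℝ, r = x ∧ x ∉ Icc a b) →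
      (m.map fun r => ‖(a : ℂ) - r‖).prod * (m.map fun r => ‖(b : ℂ) - r‖).prod ≤
        (m.map fun r => ‖(((a + b) / 2 : ℝ) : ℂ) - r‖).prod ^ 2 := by
    intro m hm
    induction m using Multiset.induction_on with
    | empty => simp
    | cons r m ih =>
      obtain ⟨x, rfl, hx⟩ := hm r (Multiset.mem_cons_self _ _)
      have h1 := ih fun y hy => hm y (Multiset.mem_cons_of_mem hy)
      simp only [Multiset.map_cons, Multiset.prod_cons, ← Complex.ofReal_sub, Complex.norm_real,
        Real.norm_eq_abs]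
      have h2 : |a - x| * |b - x| ≤ |(a + b) / 2 - x| ^ 2 := by
        rw [← abs_mul, sq_abs, abs_of_nonneg]
        · nlinarith [sq_nonneg (a - b)]
        · rcases not_and_or.mp hx with h3 | h3
          · exact mul_nonneg (by linarith [not_le.mp h3]) (by linarith [not_le.mp h3])
          · exact mul_nonneg_of_nonpos_of_nonpos (by linarith [not_le.mp h3])
              (by linarith [not_le.mp h3])
      rw [mul_pow, mul_mul_mul_comm]
      refine mul_le_mul h2 h1 (mul_nonneg ?_ ?_) (sq_nonneg _) <;>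
        exact Multiset.prod_nonneg fun y hy => by
          obtain ⟨r, _, rfl⟩ := Multiset.mem_map.mp hy
          exact norm_nonneg _
  rw [e, e, e, mul_pow, mul_mul_mul_comm, ← sq]
  gcongr
  refine key _ fun r hr => ?_
  have h1 : aeval r p = 0 := by rw [← eval_map_algebraMap]; exact (mem_roots'.mp hr).2
  obtain ⟨x, rfl⟩ : ∃ x : ℝ, r = algebraMap ℝ ℂ x := ⟨r.re, Complex.ext rfl (hp r h1)⟩
  rw [aeval_algebraMap_apply_eq_algebraMap_eval,
    map_eq_zero_iff _ (algebraMap ℝ ℂ).injective] at h1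
  exact ⟨x, rfl, fun hx => h x hx h1⟩

open Polynomial in
theorem not_lp {s : ℝ} (h0 : 0 < s) (h1 : s < 1 / 2) (p : ℕ → ℝ[X]) (hp : ∀ n, RR (p n))
    (hc : TendstoLocallyUniformly (fun n (z : ℂ) => aeval z (p n))
      (fun z : ℂ => ∑' k : ℕ, (((k : ℝ) ^ s / (k.factorial : ℝ) ^ 2 : ℝ) : ℂ) * z ^ k) atTop) :
    False := by
  obtain ⟨L0, hL0, hb⟩ := asym h0 h1
  have hG := Gamma_pos_of_pos (show 0 < 1 - s by linarith)
  set F : ℂ → ℂ := fun z => ∑' k : ℕ, (((k : ℝ) ^ s / (k.factorial : ℝ) ^ 2 : ℝ) : ℂ) * z ^ k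
    with hF
  have hFs : ∀ L, F ((-exp L : ℝ) : ℂ) = (ser s L : ℝ) := fun L => by
    simp only [hF, ser, Complex.ofReal_tsum, Complex.ofReal_mul, Complex.ofReal_pow]
  have hev : ∀ n (x : ℝ), aeval (x : ℂ) (p n) = ((p n).eval x : ℝ) := fun n x =>
    aeval_algebraMap_apply_eq_algebraMap_eval (A := ℂ) x (p n)
  have hlim : ∀ L, Tendsto (fun n => |(p n).eval (-exp L)|) atTop (𝓝 |ser s L|) := fun L => by
    have := (hc.tendstoLocallyUniformlyOn (s := univ)).tendsto_at (mem_univ ((-exp L : ℝ) : ℂ))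
    simp only [hFs, hev] at this
    simpa only [Complex.norm_real, Real.norm_eq_abs] using this.norm
  have habs : ∀ L, L0 ≤ L → (L + 2) ^ (-s) / 4 ≤ Gamma (1 - s) * |ser s L| ∧
      Gamma (1 - s) * |ser s L| ≤ 2 * (L + 2) ^ (-s) := fun L hL => by
    have h2 := hb L hL
    have hp : 0 < (L + 2) ^ (-s) := rpow_pos_of_pos (by linarith) _
    have h3 : ser s L < 0 := by
      by_contra hc
      nlinarith [mul_nonneg hG.le (not_lt.mp hc), h2.1]
    rwa [abs_of_neg h3, mul_neg]
  have main : ∀ L, L0 ≤ L → (L0 + 2) ^ (-s) / 128 ≤ (L + 2) ^ (-s) := by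
    intro L hL
    have x1 := exp_le_exp.mpr hL
    have x0 := exp_pos L0
    set B := log (2 * exp L - exp L0) with hB
    have eB : exp B = 2 * exp L - exp L0 := exp_log (by linarith)
    have hB1 : L ≤ B := exp_le_exp.mp (by linarith)
    have hB2 : B ≤ L + 1 := exp_le_exp.mp (by
      rw [exp_add]; nlinarith [add_one_le_exp (1 : ℝ), exp_pos L])
    have pB : 0 < (B + 2) ^ (-s) := rpow_pos_of_pos (by linarith) _
    have hu := (tendstoLocallyUniformly_iff_forall_isCompact.mp hc) _
      ((isCompact_Icc (a := -exp B) (b := -exp L0)).image Complex.continuous_ofReal)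
    have hne := Metric.tendstoUniformlyOn_iff.mp hu ((B + 2) ^ (-s) / 4 / Gamma (1 - s))
      (by positivity)
    have hineq : |ser s B| * |ser s L0| ≤ |ser s L| ^ 2 := by
      refine le_of_tendsto_of_tendsto ((hlim B).mul (hlim L0)) ((hlim L).pow 2) ?_
      filter_upwards [hne] with n hn
      have := midpoint_ineq (hp n) (a := -exp B) (b := -exp L0) (by linarith) fun x hx hx0 => by
        have hx1 : 0 < -x := by linarith [hx.2]
        have ex : x = -exp (log (-x)) := by rw [exp_log hx1, neg_neg]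
        have l1 : L0 ≤ log (-x) := (le_log_iff_exp_le hx1).mpr (by linarith [hx.2])
        have l2 : log (-x) ≤ B := (log_le_iff_le_exp hx1).mpr (by linarith [hx.1])
        have h2 := hn x ⟨x, hx, rfl⟩
        rw [hev, hx0, Complex.ofReal_zero, dist_zero_right, ex, hFs, Complex.norm_real,
          Real.norm_eq_abs, lt_div_iff₀ hG] at h2
        have h3 := (habs _ l1).1
        have h4 : (B + 2) ^ (-s) ≤ (log (-x) + 2) ^ (-s) :=
          rpow_le_rpow_of_nonpos (by linarith) (by linarith) (by linarith)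
        linarith
      rwa [show (-exp B + -exp L0) / 2 = -exp L by rw [eB]; ring] at this
    have pL : 0 < (L + 2) ^ (-s) := rpow_pos_of_pos (by linarith) _
    have p0 : 0 < (L0 + 2) ^ (-s) := rpow_pos_of_pos (by linarith) _
    have h5 : (L + 2) ^ (-s) / 2 ≤ (B + 2) ^ (-s) := by
      have c1 : (2 * (L + 2)) ^ (-s) ≤ (B + 2) ^ (-s) :=
        rpow_le_rpow_of_nonpos (by linarith) (by linarith) (by linarith)
      have c2 : (2 : ℝ) ^ (-1 : ℝ) ≤ 2 ^ (-s) :=
        rpow_le_rpow_of_exponent_le (by norm_num) (by linarith)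
      rw [mul_rpow zero_le_two (by linarith)] at c1
      rw [rpow_neg_one] at c2
      nlinarith
    have a1 := (habs B (by linarith)).1
    have a2 := (habs L0 le_rfl).1
    have a3 := (habs L hL).2
    have a4 : (L + 2) ^ (-s) / 8 * ((L0 + 2) ^ (-s) / 4) ≤ (2 * (L + 2) ^ (-s)) ^ 2 :=
      calc _ ≤ Gamma (1 - s) * |ser s B| * (Gamma (1 - s) * |ser s L0|) := by
            gcongr; linarith
        _ = Gamma (1 - s) ^ 2 * (|ser s B| * |ser s L0|) := by ring
        _ ≤ Gamma (1 - s) ^ 2 * |ser s L| ^ 2 := by gcongr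
        _ = (Gamma (1 - s) * |ser s L|) ^ 2 := by ring
        _ ≤ _ := by gcongr
    by_contra hcon
    nlinarith [mul_pos pL (sub_pos.mpr (not_le.mp hcon))]
  have p0 : 0 < (L0 + 2) ^ (-s) := rpow_pos_of_pos (by linarith) _
  have := ge_of_tendsto ((tendsto_rpow_neg_atTop h0).comp
    (tendsto_atTop_add_const_right _ 2 tendsto_id)) (eventually_atTop.mpr ⟨L0, main⟩)
  linarith

end Pool.Agent.P.MP_dd1f31_an
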