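import Mathlib

/-!
The decreasing function `ψ u = sqrt (u / (exp u - 1))` and the Wallis type integrals.
-/

set_option autoImplicit false

namespace Pool.Agent.P.MP_dd1f31_an

open Real MeasureTheory Set Filter Topology

/-- the function `sqrt (u / (exp u - 1))`, continued by `1` at `0` -/
noncomputable def psi (u : ℝ) : ℝ := if u = 0 then 1 else √(u / (exp u - 1))

/-- minus its derivative -/
noncomputable def rho (u : ℝ) : ℝ :=
  (u * exp u - (exp u - 1)) / (exp u - 1) ^ 2 / (2 * √(u / (exp u - 1)))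

theorem exp_sub_one_pos {u : ℝ} (hu : 0 < u) : 0 < exp u - 1 := by
  have := add_one_le_exp u; linarith

theorem psi_eq {u : ℝ} (hu : 0 < u) : psi u = √(u / (exp u - 1)) := if_neg hu.ne'

theorem psi_nonneg (u : ℝ) : 0 ≤ psi u := by
  unfold psi; split_ifs
  · norm_num
  · exact sqrt_nonneg _

theorem psi_le_one {u : ℝ} (hu : 0 < u) : psi u ≤ 1 := by
  rw [psi_eq hu, Real.sqrt_le_one, div_le_one (exp_sub_one_pos hu)]
  have := add_one_le_exp u; linarith

theorem rho_nonneg (u : ℝ) : 0 ≤ rho u := by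
  unfold rho
  have h1 := add_one_le_exp (-u)
  have h2 : exp u * exp (-u) = 1 := by rw [← exp_add]; simp
  have h3 := exp_pos u
  have h4 : 0 ≤ u * exp u - (exp u - 1) := by nlinarith
  positivity

theorem measurable_psi : Measurable psi := by
  unfold psi
  exact Measurable.ite (measurableSet_singleton 0) measurable_const (by fun_prop)

theorem measurable_rho : Measurable rho := by
  unfold rho; fun_prop

theorem hasDerivAt_psi {u : ℝ} (hu : 0 < u) : HasDerivAt psi (-rho u) u := by
  have h0 := exp_sub_one_pos hu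
  have h1 : HasDerivAt (fun u => u / (exp u - 1)) ((1 * (exp u - 1) - u * exp u) / (exp u - 1) ^ 2) u :=
    (hasDerivAt_id u).div ((hasDerivAt_exp u).sub_const 1) h0.ne'
  have h2 := h1.sqrt (div_pos hu h0).ne'
  have h3 : psi =ᶠ[𝓝 u] fun u => √(u / (exp u - 1)) := by
    filter_upwards [Ioi_mem_nhds hu] with v hv using psi_eq hv
  refine (h2.congr_of_eventuallyEq h3).congr_deriv ?_
  unfold rho; ring

theorem continuousAt_psi : ContinuousAt psi 0 := by
  rw [← continuousWithinAt_compl_self]
  have h1 := hasDerivAt_iff_tendsto_slope_zero.mp (hasDerivAt_exp 0)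
  have h2 := (h1.inv₀ (by simp)).sqrt
  have h3 : psi 0 = 1 := if_pos rfl
  unfold ContinuousWithinAt
  rw [h3]
  simp only [exp_zero, inv_one, sqrt_one, zero_add, smul_eq_mul] at h2
  refine h2.congr' ?_
  filter_upwards [self_mem_nhdsWithin] with t ht
  unfold psi
  rw [if_neg (show t ≠ 0 from ht), mul_inv, inv_inv, div_eq_mul_inv]

theorem psi_tendsto : Tendsto psi atTop (𝓝 0) := by
  have h1 : Tendsto (fun u : ℝ => √(2 * u⁻¹)) atTop (𝓝 0) := by
    have := (tendsto_inv_atTop_zero.const_mul (2 : ℝ)).sqrt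
    simpa using this
  refine tendsto_of_tendsto_of_tendsto_of_le_of_le' tendsto_const_nhds h1
    (Eventually.of_forall psi_nonneg) ?_
  filter_upwards [Ioi_mem_atTop 0] with u hu
  have hu' : 0 < u := hu
  rw [psi_eq hu']
  apply sqrt_le_sqrt
  rw [div_le_iff₀ (exp_sub_one_pos hu'), ← div_eq_mul_inv, div_mul_eq_mul_div, le_div_iff₀ hu']
  have := quadratic_le_exp_of_nonneg hu'.le
  nlinarith

theorem integrableOn_rho : IntegrableOn rho (Ioi 0) := by
  have := integrableOn_Ioi_deriv_of_nonpos continuousAt_psi.continuousWithinAt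
    (fun x hx => hasDerivAt_psi hx) (fun x _ => neg_nonpos.mpr (rho_nonneg x)) psi_tendsto
  exact integrable_neg_iff.mp this

theorem integrableOn_psi_exp {b : ℝ} (hb : 0 < b) :
    IntegrableOn (fun u => psi u * exp (-b * u)) (Ioi 0) := by
  refine Integrable.mono' (exp_neg_integrableOn_Ioi 0 hb)
    (measurable_psi.mul (by fun_prop)).aestronglyMeasurable ?_
  filter_upwards [ae_restrict_mem measurableSet_Ioi] with u hu
  have h1 := psi_nonneg u
  have h2 := psi_le_one hu
  have h3 := exp_pos (-b * u)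
  rw [Real.norm_eq_abs, abs_of_nonneg (by positivity)]
  nlinarith

theorem integrableOn_rho_exp {b : ℝ} (hb : 0 ≤ b) :
    IntegrableOn (fun u => rho u * (1 - exp (-b * u))) (Ioi 0) := by
  refine Integrable.mono' integrableOn_rho
    (measurable_rho.mul (by fun_prop)).aestronglyMeasurable ?_
  filter_upwards [ae_restrict_mem measurableSet_Ioi] with u hu
  have hu' : 0 < u := hu
  have h1 := rho_nonneg u
  have h2 : exp (-b * u) ≤ 1 := exp_le_one_iff.mpr (by nlinarith)
  have h3 := exp_pos (-b * u)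
  rw [Real.norm_eq_abs, abs_of_nonneg (mul_nonneg h1 (by linarith))]
  nlinarith

theorem by_parts {b : ℝ} (hb : 0 < b) :
    ∫ u in Ioi 0, rho u * (1 - exp (-b * u)) = b * ∫ u in Ioi 0, psi u * exp (-b * u) := by
  have hlim : Tendsto (fun u => psi u * (1 - exp (-b * u))) atTop (𝓝 0) := by
    have h1 : Tendsto (fun u : ℝ => exp (-b * u)) atTop (𝓝 0) :=
      tendsto_exp_atBot.comp (tendsto_id.const_mul_atTop_of_neg (by linarith))
    simpa using psi_tendsto.mul ((tendsto_const_nhds (x := (1 : ℝ))).sub h1)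
  have h := integral_Ioi_of_hasDerivAt_of_tendsto (a := 0)
    (f := fun u => psi u * (1 - exp (-b * u)))
    (f' := fun u => b * (psi u * exp (-b * u)) - rho u * (1 - exp (-b * u)))
    (continuousAt_psi.mul (by fun_prop)).continuousWithinAt (fun u hu => ?_)
    (((integrableOn_psi_exp hb).const_mul b).sub (integrableOn_rho_exp hb.le)) hlim
  · rw [integral_sub ((integrableOn_psi_exp hb).const_mul b) (integrableOn_rho_exp hb.le),
      integral_const_mul] at h
    simp only [mul_zero, exp_zero, sub_self] at h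
    linarith
  · have h1 : HasDerivAt (fun u => 1 - exp (-b * u)) (-(exp (-b * u) * (-b * 1))) u :=
      (((hasDerivAt_id u).const_mul (-b)).exp).const_sub 1
    refine ((hasDerivAt_psi hu).mul h1).congr_deriv ?_
    ring

/-- the Wallis integrand -/
noncomputable def ww (k : ℕ) (u : ℝ) : ℝ := exp (-(k : ℝ) * u) / √(exp u - 1)

theorem arctan_aux : IntegrableOn (ww 0) (Ioi 0) ∧ ∫ u in Ioi 0, ww 0 u = π := by
  have hc : ContinuousWithinAt (fun u => 2 * arctan (√(exp u - 1))) (Ici 0) 0 :=
    Continuous.continuousWithinAt (by fun_prop)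
  have hd : ∀ u ∈ Ioi (0 : ℝ), HasDerivAt (fun u => 2 * arctan (√(exp u - 1))) (ww 0 u) u := by
    intro u hu
    have h0 := exp_sub_one_pos hu
    have h1 := (((hasDerivAt_exp u).sub_const 1).sqrt h0.ne').arctan.const_mul 2
    refine h1.congr_deriv ?_
    unfold ww
    have h2 : 0 < √(exp u - 1) := sqrt_pos.mpr h0
    have h3 := exp_pos u
    rw [sq_sqrt h0.le]
    simp only [Nat.cast_zero, neg_zero, zero_mul, exp_zero, add_sub_cancel]
    field_simp
  have hp : ∀ u ∈ Ioi (0 : ℝ), 0 ≤ ww 0 u := fun u _ => by unfold ww; positivity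
  have hl : Tendsto (fun u => 2 * arctan (√(exp u - 1))) atTop (𝓝 (2 * (π / 2))) := by
    refine Tendsto.const_mul 2 ((tendsto_nhds_of_tendsto_nhdsWithin tendsto_arctan_atTop).comp ?_)
    exact tendsto_sqrt_atTop.comp (tendsto_atTop_add_const_right _ (-1) tendsto_exp_atTop)
  refine ⟨integrableOn_Ioi_deriv_of_nonneg hc hd hp hl, ?_⟩
  rw [integral_Ioi_of_hasDerivAt_of_nonneg hc hd hp hl]
  simp; ring

theorem integrableOn_ww (k : ℕ) : IntegrableOn (ww k) (Ioi 0) := by
  refine Integrable.mono' arctan_aux.1 (Measurable.aestronglyMeasurable (by unfold ww; fun_prop)) ?_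
  filter_upwards [ae_restrict_mem measurableSet_Ioi] with u hu
  have hu' : 0 < u := hu
  unfold ww
  rw [Real.norm_eq_abs, abs_of_nonneg (by positivity)]
  gcongr
  exact_mod_cast Nat.zero_le k

theorem ww_rec (k : ℕ) :
    ((k : ℝ) + 1) * ∫ u in Ioi 0, ww (k + 1) u = ((k : ℝ) + 1 / 2) * ∫ u in Ioi 0, ww k u := by
  have hlim : Tendsto (fun u => exp (-((k : ℝ) + 1) * u) * √(exp u - 1)) atTop (𝓝 0) := by
    have h1 : Tendsto (fun u : ℝ => exp (-(1 / 2) * u)) atTop (𝓝 0) :=
      tendsto_exp_atBot.comp (tendsto_id.const_mul_atTop_of_neg (by norm_num))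
    refine tendsto_of_tendsto_of_tendsto_of_le_of_le' tendsto_const_nhds h1
      (Eventually.of_forall (fun u => by positivity)) ?_
    filter_upwards [Ioi_mem_atTop 0] with u hu
    have hu' : 0 < u := hu
    have h2 : √(exp u - 1) ≤ exp (u / 2) := by
      rw [exp_half]; exact sqrt_le_sqrt (by linarith)
    calc exp (-((k : ℝ) + 1) * u) * √(exp u - 1) ≤ exp (-((k : ℝ) + 1) * u) * exp (u / 2) := by
          gcongr
      _ = exp (-((k : ℝ) + 1) * u + u / 2) := by rw [exp_add]
      _ ≤ exp (-(1 / 2) * u) := by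
          apply exp_le_exp.mpr
          have : (0 : ℝ) ≤ k * u := by positivity
          linarith
  have h := integral_Ioi_of_hasDerivAt_of_tendsto (a := 0)
    (f := fun u => exp (-((k : ℝ) + 1) * u) * √(exp u - 1))
    (f' := fun u => ((k : ℝ) + 1) * ww (k + 1) u - ((k : ℝ) + 1 / 2) * ww k u)
    (Continuous.continuousWithinAt (by fun_prop)) (fun u hu => ?_)
    (((integrableOn_ww _).const_mul _).sub ((integrableOn_ww _).const_mul _)) hlim
  · rw [integral_sub ((integrableOn_ww _).const_mul _) ((integrableOn_ww _).const_mul _),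
      integral_const_mul, integral_const_mul] at h
    simp only [exp_zero, sub_self, sqrt_zero, mul_zero] at h
    linarith
  · have h0 := exp_sub_one_pos hu
    have h1 := (((hasDerivAt_id u).const_mul (-((k : ℝ) + 1))).exp).mul
      (((hasDerivAt_exp u).sub_const 1).sqrt h0.ne')
    refine h1.congr_deriv ?_
    unfold ww
    have h2 : 0 < √(exp u - 1) := sqrt_pos.mpr h0
    have h3 : √(exp u - 1) * √(exp u - 1) = exp u - 1 := mul_self_sqrt h0.le
    have h4 : exp (-(k : ℝ) * u) = exp (-((k : ℝ) + 1) * u) * exp u := by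
      rw [← exp_add]; congr 1; ring
    push_cast
    rw [h4]
    simp only [id]
    generalize √(exp u - 1) = s at *
    generalize exp (-((k : ℝ) + 1) * u) = E at *
    have h5 : exp u = s * s + 1 := by linarith
    rw [h5]
    field_simp
    ring

theorem integral_ww (k : ℕ) : ∫ u in Ioi 0, ww k u =
    π * (((2 * k).factorial : ℝ) / (4 ^ k * (k.factorial : ℝ) ^ 2)) := by
  induction k with
  | zero => rw [arctan_aux.2]; simp
  | succ k ih =>
    have h := ww_rec k
    rw [ih] at h
    have hk : ((k : ℝ) + 1) ≠ 0 := by positivity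
    apply mul_left_cancel₀ hk
    rw [h, show 2 * (k + 1) = 2 * k + 1 + 1 by ring, Nat.factorial_succ (2 * k + 1),
      Nat.factorial_succ (2 * k), Nat.factorial_succ k]
    push_cast
    field_simp
    ring

end Pool.Agent.P.MP_dd1f31_an
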