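import Pool.Agent.P.MP_dd1f31_an.Psi
import Pool.Agent.P.MP_dd1f31_an.Mixture

/-!
The moment representation of `sqrt k * (2 k)! / (4 ^ k * k! ^ 2)` and the final theorem.
-/

set_option autoImplicit false

namespace Pool.Agent.P.MP_dd1f31_an

open Real MeasureTheory Set Filter Topology

theorem double_integral (k : ℕ) (hk : 0 < k) :
    ∫ s in Ioi (0 : ℝ), ∫ u in Ioi (0 : ℝ), psi u * exp (-((k : ℝ) * (1 + s ^ 2)) * u) =
      √π / (2 * √k) * ∫ u in Ioi 0, ww k u := by
  have hk' : (0 : ℝ) < k := by exact_mod_cast hk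
  have hmeas : Measurable (Function.uncurry
      fun s u : ℝ => psi u * exp (-((k : ℝ) * (1 + s ^ 2)) * u)) :=
    (measurable_psi.comp measurable_snd).mul (by fun_prop)
  have hint : Integrable (Function.uncurry
      fun s u : ℝ => psi u * exp (-((k : ℝ) * (1 + s ^ 2)) * u))
      ((volume.restrict (Ioi 0)).prod (volume.restrict (Ioi 0))) := by
    rw [integrable_prod_iff hmeas.aestronglyMeasurable]
    refine ⟨Eventually.of_forall (fun s => integrableOn_psi_exp (b := (k : ℝ) * (1 + s ^ 2)) (by positivity)), ?_⟩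
    refine Integrable.mono' ((integrable_inv_one_add_sq.const_mul ((k : ℝ)⁻¹)).integrableOn)
      (hmeas.norm.aestronglyMeasurable.integral_prod_right') (Eventually.of_forall (fun s => ?_))
    have hb : (0 : ℝ) < (k : ℝ) * (1 + s ^ 2) := by positivity
    rw [Real.norm_eq_abs, abs_of_nonneg (integral_nonneg (fun _ => norm_nonneg _))]
    have h1 : ∫ u in Ioi (0 : ℝ), exp (-((k : ℝ) * (1 + s ^ 2)) * u) = (k : ℝ)⁻¹ * (1 + s ^ 2)⁻¹ := by
      rw [integral_exp_mul_Ioi (by linarith)]
      simp only [mul_zero, exp_zero]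
      field_simp
    rw [← h1]
    refine integral_mono_ae (integrableOn_psi_exp hb).norm (exp_neg_integrableOn_Ioi 0 hb) ?_
    filter_upwards [ae_restrict_mem measurableSet_Ioi] with u hu
    have h1 := psi_nonneg u
    have h2 := psi_le_one hu
    have h3 := exp_pos (-((k : ℝ) * (1 + s ^ 2)) * u)
    simp only [Function.uncurry]
    rw [Real.norm_eq_abs, abs_of_nonneg (by positivity)]
    nlinarith
  rw [integral_integral_swap hint, ← integral_const_mul]
  refine setIntegral_congr_fun measurableSet_Ioi (fun u hu => ?_)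
  have hu' : 0 < u := hu
  have e : ∀ s : ℝ, psi u * exp (-((k : ℝ) * (1 + s ^ 2)) * u) =
      psi u * exp (-(k : ℝ) * u) * exp (-((k : ℝ) * u) * s ^ 2) := by
    intro s; rw [mul_assoc, ← exp_add]; congr 2; ring
  simp only [e]
  rw [integral_const_mul, integral_gaussian_Ioi, psi_eq hu']
  unfold ww
  have h0 := exp_sub_one_pos hu'
  rw [sqrt_div hu'.le, sqrt_div pi_pos.le, sqrt_mul hk'.le]
  have h1 : 0 < √u := sqrt_pos.mpr hu'
  have h2 : 0 < √(exp u - 1) := sqrt_pos.mpr h0
  have h3 : 0 < √(k : ℝ) := sqrt_pos.mpr hk'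
  field_simp

/-- first marginal -/
noncomputable def mu1 : Measure ℝ :=
  (volume.restrict (Ioi 0)).withDensity
    (fun s => ENNReal.ofReal (2 / (π * √π) * (1 + s ^ 2)⁻¹))

/-- second marginal -/
noncomputable def mu2 : Measure ℝ :=
  (volume.restrict (Ioi 0)).withDensity (fun u => ENNReal.ofReal (rho u))

instance : IsFiniteMeasure mu1 :=
  isFiniteMeasure_withDensity_ofReal
    ((integrable_inv_one_add_sq.const_mul _).integrableOn).hasFiniteIntegral

instance : IsFiniteMeasure mu2 :=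
  isFiniteMeasure_withDensity_ofReal integrableOn_rho.hasFiniteIntegral

theorem integral_mu1 (f : ℝ → ℝ) :
    ∫ s, f s ∂mu1 = ∫ s in Ioi 0, 2 / (π * √π) * (1 + s ^ 2)⁻¹ * f s := by
  unfold mu1
  rw [integral_withDensity_eq_integral_toReal_smul (by fun_prop)
    (Eventually.of_forall (fun _ => ENNReal.ofReal_lt_top))]
  refine integral_congr_ae (Eventually.of_forall (fun s => ?_))
  simp only [smul_eq_mul]
  rw [ENNReal.toReal_ofReal (by positivity)]

theorem integral_mu2 (f : ℝ → ℝ) : ∫ u, f u ∂mu2 = ∫ u in Ioi 0, rho u * f u := by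
  unfold mu2
  rw [integral_withDensity_eq_integral_toReal_smul measurable_rho.ennreal_ofReal
    (Eventually.of_forall (fun _ => ENNReal.ofReal_lt_top))]
  refine integral_congr_ae (Eventually.of_forall (fun s => ?_))
  simp only [smul_eq_mul]
  rw [ENNReal.toReal_ofReal (rho_nonneg s)]

/-- the random dilation -/
noncomputable def tau (p : ℝ × ℝ) : ℝ := exp (-((1 + p.1 ^ 2) * |p.2| / 2))

theorem measurable_tau : Measurable tau := by unfold tau; fun_prop

theorem tau_nonneg (p : ℝ × ℝ) : 0 ≤ tau p := (exp_pos _).le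

theorem tau_le_one (p : ℝ × ℝ) : tau p ≤ 1 := by
  unfold tau
  apply exp_le_one_iff.mpr
  have : 0 ≤ (1 + p.1 ^ 2) * |p.2| / 2 := by positivity
  linarith

theorem moment (k : ℕ) :
    4 ^ k / ((2 * k).factorial : ℝ) *
      ((mu1.prod mu2).real univ - ∫ p, tau p ^ (2 * k) ∂(mu1.prod mu2)) =
      √(k : ℝ) / (k.factorial : ℝ) ^ 2 := by
  rcases Nat.eq_zero_or_pos k with rfl | hk
  · simp
  have hk' : (0 : ℝ) < k := by exact_mod_cast hk
  have hint : Integrable (fun p => tau p ^ (2 * k)) (mu1.prod mu2) := by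
    refine Integrable.mono' (integrable_const (1 : ℝ))
      (measurable_tau.pow_const _).aestronglyMeasurable (Eventually.of_forall (fun p => ?_))
    rw [Real.norm_eq_abs, abs_of_nonneg (pow_nonneg (tau_nonneg p) _)]
    exact pow_le_one₀ (tau_nonneg p) (tau_le_one p)
  have h1 : (mu1.prod mu2).real univ - ∫ p, tau p ^ (2 * k) ∂(mu1.prod mu2) =
      ∫ p, (1 - tau p ^ (2 * k)) ∂(mu1.prod mu2) := by
    rw [integral_sub (integrable_const _) hint]; simp
  have h2 : ∀ s : ℝ, 2 / (π * √π) * (1 + s ^ 2)⁻¹ * ∫ u, (1 - tau (s, u) ^ (2 * k)) ∂mu2 =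
      2 / (π * √π) * k * ∫ u in Ioi (0 : ℝ), psi u * exp (-((k : ℝ) * (1 + s ^ 2)) * u) := by
    intro s
    have hb : (0 : ℝ) < (k : ℝ) * (1 + s ^ 2) := by positivity
    have h3 : ∫ u in Ioi (0 : ℝ), rho u * (1 - tau (s, u) ^ (2 * k)) =
        ∫ u in Ioi (0 : ℝ), rho u * (1 - exp (-((k : ℝ) * (1 + s ^ 2)) * u)) := by
      refine setIntegral_congr_fun measurableSet_Ioi (fun u hu => ?_)
      have hu' : 0 < u := hu
      simp only [tau]
      rw [← exp_nat_mul, abs_of_pos hu']
      congr 3; push_cast; ring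
    rw [integral_mu2, h3, by_parts hb]
    field_simp
  rw [h1, integral_prod (fun p => 1 - tau p ^ (2 * k)) ((integrable_const _).sub hint),
    integral_mu1]
  simp only [h2]
  rw [integral_const_mul, double_integral k hk, integral_ww]
  have h3 : 0 < √(k : ℝ) := sqrt_pos.mpr hk'
  have h4 : 0 < √π := sqrt_pos.mpr pi_pos
  have h5 : (k : ℝ) = √(k : ℝ) * √(k : ℝ) := (mul_self_sqrt hk'.le).symm
  have h6 := pi_pos
  have h7 : (0 : ℝ) < ((2 * k).factorial : ℝ) := by positivity
  have h8 : (0 : ℝ) < (k.factorial : ℝ) := by positivity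
  generalize √(k : ℝ) = r at *
  rw [h5]
  field_simp

theorem main : ∃ p : ℕ → Polynomial ℝ,
      (∀ n, ∀ z : ℂ, Polynomial.aeval z (p n) = 0 → z.im = 0 ∧ z.re ≤ 0) ∧
      TendstoLocallyUniformly (fun n (z : ℂ) => Polynomial.aeval z (p n))
        (fun z : ℂ => ∑' k : ℕ,
          ((Real.sqrt (k : ℝ) / ((Nat.factorial k : ℝ) ^ 2) : ℝ) : ℂ) * z ^ k)
        Filter.atTop := by
  have h := mixture (mu1.prod mu2) tau measurable_tau tau_nonneg tau_le_one
  simp only [moment] at h
  exact h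

end Pool.Agent.P.MP_dd1f31_an
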